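import Pool.Agent.helper37.P2.SpecD

/-! # Row p2:CHB -/

set_option autoImplicit false

open scoped ContDiff Topology
open MeasureTheory Filter Set Metric MvPolynomial Pool.Agent.helper37.QA

namespace Pool.Agent.P2

theorem CHB_ne (ι : Fin 2) (x y : ℂ) : cht ι x y ≠ 0 := by
  intro h
  unfold cht at h
  by_cases hι : ι = 0
  · rw [if_pos hι] at h
    have := congrFun h 0
    simp at this
  · rw [if_neg hι] at h
    have := congrFun h 1
    simp at this

theorem CHB_cont (ι : Fin 2) : Continuous fun p : ℂ × ℂ => cht ι p.1 p.2 := by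
  unfold cht
  by_cases hι : ι = 0
  · simp only [if_pos hι]
    refine continuous_pi fun i => ?_
    fin_cases i
    · exact continuous_const
    · exact continuous_fst
    · exact continuous_snd
  · simp only [if_neg hι]
    refine continuous_pi fun i => ?_
    fin_cases i
    · exact continuous_fst
    · exact continuous_const
    · exact continuous_snd

theorem CHB_one (d : ℕ) (f : Endo 2 d) (U : Set (PP 2)) (hU : Good0 f U) :
    ∃ R : ℝ, 1 ≤ R ∧ ∀ (ι : Fin 2) (x y : ℂ), ‖x‖ ≤ 3 → cht ι x y ∈ cone U → ‖y‖ ≤ R := by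
  set a : E3 := ![0, 0, 1] with ha
  have ha0 : a ≠ 0 := by
    intro h
    have := congrFun h 2
    simp [ha] at this
  have h1 : toPP ⟨a, ha0⟩ ∉ closure U := hU.2 a ha0 rfl rfl
  have h2 : IsOpen (cone (closure U)ᶜ) := cone_open isClosed_closure.isOpen_compl
  obtain ⟨δ, hδ, hball⟩ := Metric.isOpen_iff.1 h2 a ⟨ha0, h1⟩
  refine ⟨max 1 (4 / δ), le_max_left _ _, fun ι x y hx hc => ?_⟩
  by_contra hcon
  rw [not_le, max_lt_iff, div_lt_iff₀ hδ] at hcon
  obtain ⟨hy1, hy2⟩ := hcon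
  have hy0 : 0 < ‖y‖ := by linarith
  have hyne : y ≠ 0 := norm_pos_iff.1 hy0
  have e1 : ‖y⁻¹‖ < δ := by
    rw [norm_inv, inv_lt_comm₀ hy0 hδ, inv_lt_iff_one_lt_mul₀ hδ]
    nlinarith
  have e2 : ‖y⁻¹ * x‖ < δ := by
    rw [norm_mul, norm_inv, ← div_eq_inv_mul, div_lt_iff₀ hy0]
    nlinarith
  have h3 : y⁻¹ • cht ι x y ∈ ball a δ := by
    rw [mem_ball, dist_pi_lt_iff hδ]
    intro i
    unfold cht
    by_cases hι : ι = 0
    · rw [if_pos hι]
      fin_cases i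
      · simpa [ha, dist_eq_norm] using e1
      · simpa [ha, dist_eq_norm] using e2
      · simpa [ha, dist_eq_norm, hyne] using hδ
    · rw [if_neg hι]
      fin_cases i
      · simpa [ha, dist_eq_norm] using e2
      · simpa [ha, dist_eq_norm] using e1
      · simpa [ha, dist_eq_norm, hyne] using hδ
  have h4 := cone_smul (hball h3) hyne
  rw [smul_smul, mul_inv_cancel₀ hyne, one_smul] at h4
  obtain ⟨g1, g2⟩ := h4
  obtain ⟨g3, g4⟩ := hc
  exact g2 (subset_closure g4)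

theorem CHB : CHB_stmt := by
  refine ⟨CHB_one, ?_⟩
  intro d f Us K _ hC 𝒱 h𝒱 hK
  have hanti : ∀ n, Us (n + 1) ⊆ Us n := fun n => subset_closure.trans (hC.anti n)
  have hanti2 : Antitone Us := antitone_nat_of_succ_le hanti
  obtain ⟨i, hi⟩ : ∃ i : ℕ, closure (Us (i + 1)) ⊆ 𝒱 := by
    refine exists_subset_nhds_of_isCompact' (V := fun i : ℕ => closure (Us (i + 1))) ?_
      (fun i => isClosed_closure.isCompact) (fun i => isClosed_closure) ?_
    · refine directed_of_isDirected_le ?_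
      intro i j hij
      exact closure_mono (hanti2 (by omega))
    · intro x hx
      refine h𝒱.mem_nhds (hK ?_)
      rw [hC.inter]
      rw [mem_iInter] at hx ⊢
      intro n
      exact hC.anti n (hx n)
  have hsub : closure (Us (i + 1)) ⊆ 𝒱 ∩ Us 0 :=
    subset_inter hi ((hC.anti i).trans (hanti2 (Nat.zero_le i)))
  obtain ⟨R, -, hR⟩ := CHB_one d f (Us 0) hC.good
  have hopen : IsOpen (𝒱 ∩ Us 0) := h𝒱.inter hC.good.1.1
  have key : ∀ ι : Fin 2, ∃ τ : ℝ, 0 < τ ∧ ∀ x y v : ℂ, ‖x‖ ≤ 3 → cht ι x y ∈ cone (Us (i + 1)) →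
      ‖v‖ < τ → cht ι x (y + v) ∈ cone (𝒱 ∩ Us 0) := by
    intro ι
    set C : Set (ℂ × ℂ) := (closedBall (0 : ℂ) 3 ×ˢ closedBall (0 : ℂ) R) ∩
      {p | toPP ⟨cht ι p.1 p.2, CHB_ne ι p.1 p.2⟩ ∈ closure (Us (i + 1))} with hCdef
    have hCc : IsCompact C := by
      refine ((isCompact_closedBall _ _).prod (isCompact_closedBall _ _)).inter_right ?_
      have h1 : Continuous fun p : ℂ × ℂ =>
          (⟨cht ι p.1 p.2, CHB_ne ι p.1 p.2⟩ : {v : Fin (2 + 1) → ℂ // v ≠ 0}) :=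
        (CHB_cont ι).subtype_mk _
      exact isClosed_closure.preimage (toPP_cont.comp h1)
    have hW : IsOpen {p : ℂ × ℂ | cht ι p.1 p.2 ∈ cone (𝒱 ∩ Us 0)} :=
      (cone_open hopen).preimage (CHB_cont ι)
    have hCW : C ⊆ {p : ℂ × ℂ | cht ι p.1 p.2 ∈ cone (𝒱 ∩ Us 0)} := by
      rintro p ⟨-, hp⟩
      exact ⟨CHB_ne ι p.1 p.2, hsub hp⟩
    obtain ⟨τ, hτ, hth⟩ := hCc.exists_thickening_subset_open hW hCW
    refine ⟨τ, hτ, fun x y v hx hxy hv => ?_⟩
    obtain ⟨g1, g2⟩ := hxy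
    have hy : ‖y‖ ≤ R := hR ι x y hx ⟨g1, hanti2 (Nat.zero_le _) g2⟩
    have hmem : (x, y) ∈ C := by
      refine ⟨⟨?_, ?_⟩, subset_closure g2⟩
      · rw [mem_closedBall_zero_iff]; exact hx
      · rw [mem_closedBall_zero_iff]; exact hy
    have hmem2 : ((x, y + v) : ℂ × ℂ) ∈ thickening τ C → cht ι x (y + v) ∈ cone (𝒱 ∩ Us 0) :=
      fun h => hth h
    refine hmem2 (mem_thickening_iff.2 ⟨(x, y), hmem, ?_⟩)
    rw [Prod.dist_eq, max_lt_iff]
    constructor
    · show dist x x < τ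
      rw [dist_self]
      exact hτ
    · show dist (y + v) y < τ
      rw [dist_eq_norm, add_sub_cancel_left]
      exact hv
  obtain ⟨τ0, hτ0, h0⟩ := key 0
  obtain ⟨τ1, hτ1, h1⟩ := key 1
  refine ⟨i + 1, min τ0 τ1, lt_min hτ0 hτ1, ?_⟩
  intro ι x y v hx hxy hv
  rw [lt_min_iff] at hv
  rcases Fin.exists_fin_two.1 ⟨ι, rfl⟩ with h | h
  · subst h
    exact h0 x y v hx hxy hv.1
  · subst h
    exact h1 x y v hx hxy hv.2

end Pool.Agent.P2
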