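import Pool.Agent.helper37.P2.SpecB
import Pool.Agent.helper53.P2.MSS
import Pool.Agent.helper85.P2.INTM

/-! Project P2 (MP_063734_an), row DMS: masses of perturbed discs and of images of discs. -/

set_option autoImplicit false

open scoped ContDiff Topology
open MeasureTheory Filter Set Metric MvPolynomial Pool.Agent.helper37.QA

namespace Pool.Agent.P2

theorem DMS_normSq : ContDiff ℝ ∞ (Complex.normSq : ℂ → ℝ) := by
  have e : (Complex.normSq : ℂ → ℝ) = fun z => z.re * z.re + z.im * z.im := by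
    ext z
    exact Complex.normSq_apply z
  rw [e]
  have h1 : ContDiff ℝ ∞ (fun z : ℂ => z.re) := Complex.reCLM.contDiff
  have h2 : ContDiff ℝ ∞ (fun z : ℂ => z.im) := Complex.imCLM.contDiff
  exact (h1.mul h1).add (h2.mul h2)

theorem DMS_eta : ContDiff ℝ ∞ (fun z : ℂ => eta z ^ 2) ∧ tsupport (fun z : ℂ => eta z ^ 2) ⊆ ball 0 1 := by
  constructor
  · have h : ContDiff ℝ ∞ (fun z : ℂ => Real.smoothTransition (5 - 8 * Complex.normSq z)) :=
      Real.smoothTransition.contDiff.comp (contDiff_const.sub (contDiff_const.mul DMS_normSq))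
    exact h.pow 2
  · have h1 : tsupport (fun z : ℂ => eta z ^ 2) ⊆ closedBall 0 (4 / 5) := by
      apply closure_minimal _ isClosed_closedBall
      intro z hz
      rw [mem_closedBall_zero_iff]
      by_contra hc
      push Not at hc
      apply hz
      have h2 : Complex.normSq z = ‖z‖ ^ 2 := Complex.normSq_eq_norm_sq z
      have h3 : eta z = 0 := by
        unfold eta
        apply Real.smoothTransition.zero_of_nonpos
        rw [h2]
        nlinarith
      show eta z ^ 2 = 0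
      rw [h3]
      norm_num
    exact h1.trans (closedBall_subset_ball (by norm_num))

theorem DMS_lap {κ : ℂ → ℝ} (hκ : ContDiff ℝ 2 κ) (hs : tsupport κ ⊆ ball 0 1) :
    Continuous (lap κ) ∧ tsupport (lap κ) ⊆ ball 0 1 ∧ HasCompactSupport (lap κ) := by
  have hc : Continuous (lap κ) := by
    unfold lap
    have h1 : Continuous (fun z => iteratedFDeriv ℝ 2 κ z) := hκ.continuous_iteratedFDeriv (m := 2) le_rfl
    have h2 : ∀ m : Fin 2 → ℂ, Continuous (fun z => iteratedFDeriv ℝ 2 κ z m) := fun m =>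
      (ContinuousMultilinearMap.apply ℝ (fun _ : Fin 2 => ℂ) ℝ m).continuous.comp h1
    exact continuous_const.mul ((h2 _).add (h2 _))
  have h1 : tsupport (lap κ) ⊆ tsupport κ := by
    apply closure_minimal _ (isClosed_tsupport κ)
    intro z hz
    apply support_iteratedFDeriv_subset (𝕜 := ℝ) 2
    intro h0
    apply hz
    unfold lap
    rw [h0]
    simp
  refine ⟨hc, h1.trans hs, ?_⟩
  exact IsCompact.of_isClosed_subset (isCompact_closedBall (0 : ℂ) 1) (isClosed_tsupport _)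
    ((h1.trans hs).trans ball_subset_closedBall)

theorem DMS_diff {κ g h : ℂ → ℝ} (hκ : Continuous κ) (hs : tsupport κ ⊆ ball 0 1) (hc : HasCompactSupport κ)
    (hg : ContinuousOn g (ball 0 1)) (hh : ContinuousOn h (ball 0 1)) (B : ℝ)
    (hB : ∀ z ∈ ball (0 : ℂ) 1, |g z - h z| ≤ B) :
    |(∫ z, κ z * g z) - ∫ z, κ z * h z| ≤ (∫ z, |κ z|) * B := by
  rw [← integral_sub (MSS_integrable isOpen_ball hκ hs hc hg) (MSS_integrable isOpen_ball hκ hs hc hh),
    ← Real.norm_eq_abs, ← integral_mul_const]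
  apply norm_integral_le_of_norm_le
  · have : Integrable (fun z => |κ z|) := (hκ.integrable_of_hasCompactSupport hc).abs
    exact this.mul_const B
  · refine Eventually.of_forall fun z => ?_
    rw [← mul_sub, norm_mul, Real.norm_eq_abs, Real.norm_eq_abs]
    by_cases hz : z ∈ ball (0 : ℂ) 1
    · exact mul_le_mul_of_nonneg_left (hB z hz) (abs_nonneg _)
    · rw [image_eq_zero_of_notMem_tsupport (fun h => hz (hs h)), abs_zero, zero_mul, zero_mul]

theorem DMS_cone {k : ℕ} {U V : Set (PP k)} (h : U ⊆ V) : cone U ⊆ cone V := by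
  rintro x ⟨hx, hU⟩
  exact ⟨hx, h hU⟩

theorem DMS_It {d : ℕ} (f : Endo 2 d) (N : ℕ) {Z : ℂ → E3} (hZ : DifferentiableOn ℂ Z (ball 0 1)) :
    DifferentiableOn ℂ (fun z => It f N (Z z)) (ball 0 1) := by
  refine differentiableOn_pi.2 fun i => ?_
  intro z hz
  have h1 : ∀ j, AnalyticAt ℂ (fun w => Z w j) z := by
    intro j
    have h2 : DifferentiableOn ℂ (fun w => Z w j) (ball 0 1) := fun w hw =>
      (differentiableWithinAt_pi.1 (hZ w hw)) j
    exact h2.analyticAt (isOpen_ball.mem_nhds hz)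
  have h3 := AnalyticAt.aeval_mvPolynomial h1 (iter f.F N i)
  exact (h3.differentiableAt.differentiableWithinAt)

theorem DMS_un {d : ℕ} (f : Endo 2 d) (U : Set (PP 2)) (N : ℕ)
    (hp : ∀ Z ∈ cone (closure U), 0 < pq (It f N Z)) {Z : ℂ → E3} (hZ : Dsc U Z) :
    ContinuousOn (fun z => un f N (Z z)) (ball 0 1) := by
  have h1 := (DMS_It f N hZ.1).continuousOn
  have h2 : ∀ i, ContinuousOn (fun z => It f N (Z z) i) (ball 0 1) := fun i => (continuousOn_pi.1 h1) i
  have h3 : ContinuousOn (fun z => pq (It f N (Z z))) (ball 0 1) := by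
    unfold pq
    exact (Complex.continuous_normSq.comp_continuousOn (h2 0)).add (Complex.continuous_normSq.comp_continuousOn (h2 1))
  unfold un
  refine (continuousOn_const.mul (h3.log fun z hz => ?_)).div_const _
  exact (hp _ (DMS_cone subset_closure (hZ.2 z hz))).ne'

theorem DMS_nq {Z : ℂ → E3} (hZ : DifferentiableOn ℂ Z (ball 0 1)) (h0 : ∀ z ∈ ball (0 : ℂ) 1, Z z ≠ 0) :
    ContDiffOn ℝ 2 (fun z => (1 / 2) * Real.log (nq (Z z))) (ball 0 1) := by
  intro z hz
  have hmem : ball (0 : ℂ) 1 ∈ 𝓝 z := isOpen_ball.mem_nhds hz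
  have c : ∀ i, ContDiffAt ℝ 2 (fun z => Z z i) z := fun i => by
    have h2 : DifferentiableOn ℂ (fun w => Z w i) (ball 0 1) := fun w hw =>
      (differentiableWithinAt_pi.1 (hZ w hw)) i
    exact ((h2.analyticAt hmem).contDiffAt (n := 2)).restrict_scalars ℝ
  have hN2 : ContDiffAt ℝ 2 (fun t => nq (Z t)) z := by
    unfold nq
    exact ContDiffAt.sum fun i _ => MAU_contDiff_normSq.contDiffAt.comp z (c i)
  have hN : nq (Z z) ≠ 0 := (INTM_nq_pos _ (h0 z hz)).ne'
  exact (contDiffAt_const.mul (hN2.log hN)).contDiffWithinAt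

theorem DMS_ar {Z : ℂ → E3} (hZ : DifferentiableOn ℂ Z (ball 0 1)) (h0 : ∀ z ∈ ball (0 : ℂ) 1, Z z ≠ 0)
    (z : ℂ) (hz : z ∈ ball (0 : ℂ) 1) : ar Z z = lap (fun z => (1 / 2) * Real.log (nq (Z z))) z := by
  rw [INTM_lap Z (ball 0 1) isOpen_ball z hz hZ (h0 z hz)]
  unfold ar
  rw [INTM_lagr]

/-- row DMS -/
theorem DMS (hUN1 : UN1_stmt) (hMSS : MSS_stmt) (hRAD : RAD_stmt) : DMS_stmt := by
  intro d f U r hd hU hr0 hr hRad
  obtain ⟨C1, hC1, hun, hnq, hpos, -⟩ := hUN1 d f U hd hU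
  obtain ⟨-, hest, -, hdsc⟩ := hRAD
  obtain ⟨hη, hηs⟩ := DMS_eta
  obtain ⟨hκ, hκs, hκc⟩ := DMS_lap (hη.of_le ENat.LEInfty.out) hηs
  have hηc : HasCompactSupport (fun z : ℂ => eta z ^ 2) :=
    IsCompact.of_isClosed_subset (isCompact_closedBall (0 : ℂ) 1) (isClosed_tsupport _)
      (hηs.trans ball_subset_closedBall)
  have hI : 0 ≤ ∫ z, |lap (fun z : ℂ => eta z ^ 2) z| := integral_nonneg fun z => abs_nonneg _
  have hl2 : 0 < Real.log 2 := Real.log_pos (by norm_num)
  have hd0 : (d : ℝ) ≠ 0 := by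
    have : d ≠ 0 := by omega
    exact_mod_cast this
  have hmass : ∀ (N : ℕ) (Z : ℂ → E3), Dsc U Z →
      mass f N Z = ∫ z, lap (fun z : ℂ => eta z ^ 2) z * un f N (Z z) := fun N Z hZ =>
    (hMSS d f U hd hU Z hZ N).2 _ hη hηs
  have hcU : ∀ Z : ℂ → E3, Dsc U Z → ∀ z ∈ ball (0 : ℂ) 1, Z z ∈ cone (closure U) := fun Z hZ z hz =>
    DMS_cone subset_closure (hZ.2 z hz)
  have hcont : ∀ (N : ℕ) (Z : ℂ → E3), Dsc U Z → ContinuousOn (fun z => un f N (Z z)) (ball 0 1) :=
    fun N Z hZ => DMS_un f U N (fun W hW => (hpos N W hW).1) hZ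
  have hne : ∀ Z : ℂ → E3, Dsc U Z → ∀ z ∈ ball (0 : ℂ) 1, Z z ≠ 0 := fun Z hZ z hz => (hZ.2 z hz).1
  refine ⟨(∫ z, |lap (fun z : ℂ => eta z ^ 2) z|) * (2 * C1 + Real.log 2) + 1, by positivity, ?_, ?_, ?_, ?_⟩
  · -- perturbation
    intro N Z A hZ hA
    have hsub : f.map '' closure U ⊆ U := hU.1.2.2
    have hZU : Dsc U Z := ⟨hZ.1, fun z hz => DMS_cone hsub (hZ.2 z hz)⟩
    have hAZ : Dsc U (fun z => mv A (Z z)) := hdsc U Z r _ A hRad hA hZ
    have hA1 : Near (1 / 100) A := fun i j => (hA i j).trans_le hr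
    rw [hmass N _ hAZ, hmass N _ hZU]
    refine (DMS_diff hκ hκs hκc (hcont N _ hAZ) (hcont N _ hZU) (2 * C1 + Real.log 2) ?_).trans (by linarith)
    intro z hz
    have a1 := hnq N _ (hcU _ hAZ z hz)
    have a2 := hnq N _ (hcU _ hZU z hz)
    obtain ⟨-, -, e1, e2, -, -⟩ := hest A hA1 (Z z) 0
    have p1 : 0 < nq (Z z) := INTM_nq_pos _ (hne _ hZU z hz)
    have p2 : 0 < nq (mv A (Z z)) := INTM_nq_pos _ (hne _ hAZ z hz)
    have l4 : Real.log 4 = 2 * Real.log 2 := by
      rw [show (4 : ℝ) = 2 ^ 2 by norm_num, Real.log_pow]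
      norm_num
    have b1 : Real.log (nq (mv A (Z z))) ≤ 2 * Real.log 2 + Real.log (nq (Z z)) := by
      rw [← l4, ← Real.log_mul (by norm_num) p1.ne']
      exact Real.log_le_log p2 e2
    have b2 : Real.log (nq (Z z)) ≤ 2 * Real.log 2 + Real.log (nq (mv A (Z z))) := by
      rw [← l4, ← Real.log_mul (by norm_num) p2.ne']
      exact Real.log_le_log p1 (by linarith)
    rw [abs_le] at a1 a2 ⊢
    constructor <;> linarith [a1.1, a1.2, a2.1, a2.2]
  · intro N n Z hZ
    rw [hmass N _ hZ, hmass n _ hZ]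
    refine (DMS_diff hκ hκs hκc (hcont N _ hZ) (hcont n _ hZ) (2 * C1 + Real.log 2) ?_).trans (by linarith)
    intro z hz
    have a1 := hnq N _ (hcU _ hZ z hz)
    have a2 := hnq n _ (hcU _ hZ z hz)
    rw [abs_le] at a1 a2 ⊢
    constructor <;> linarith [a1.1, a1.2, a2.1, a2.2]
  · intro N Z hZ
    have hsm := DMS_nq hZ.1 (hne Z hZ)
    have e1 : (∫ z, eta z ^ 2 * ar Z z) = ∫ z, lap (fun z : ℂ => eta z ^ 2) z * ((1 / 2) * Real.log (nq (Z z))) := by
      rw [← MSS_green isOpen_ball (hη.of_le ENat.LEInfty.out) hηs hηc hsm]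
      refine integral_congr_ae (Eventually.of_forall fun z => ?_)
      change eta z ^ 2 * ar Z z = eta z ^ 2 * lap (fun z => (1 / 2) * Real.log (nq (Z z))) z
      by_cases hz : z ∈ ball (0 : ℂ) 1
      · rw [DMS_ar hZ.1 (hne Z hZ) z hz]
      · have h0 : eta z ^ 2 = 0 :=
          image_eq_zero_of_notMem_tsupport (f := fun z : ℂ => eta z ^ 2) (fun h => hz (hηs h))
        rw [h0, zero_mul, zero_mul]
    rw [e1, hmass N _ hZ]
    refine (DMS_diff hκ hκs hκc hsm.continuousOn (hcont N _ hZ) (2 * C1 + Real.log 2) ?_).trans (by linarith)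
    intro z hz
    have a1 := hnq N _ (hcU _ hZ z hz)
    rw [abs_le] at a1 ⊢
    constructor <;> linarith [a1.1, a1.2]
  · intro N Z hZ
    have hIt : ∀ W : E3, It f N (It f 1 W) = It f (N + 1) W := fun W => (pmap_iter_add f.F N 1 W).symm
    have htau : ∀ z, tau f N (fun z => It f 1 (Z z)) z = d * tau f (N + 1) Z z := by
      intro z
      unfold tau
      simp only [hIt]
      rw [pow_succ (d : ℝ) N]
      field_simp
    refine ⟨⟨DMS_It f 1 hZ.1, ?_⟩, ?_, ?_⟩
    · intro z hz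
      obtain ⟨h, hmem⟩ := hZ.2 z hz
      refine ⟨pmap_ne (iter_nd f.nondeg 1) h, ?_⟩
      have := map_iter f 1 h
      rw [Function.iterate_one] at this
      exact ⟨_, hmem, this⟩
    · unfold mass
      rw [← integral_const_mul]
      refine integral_congr_ae (Eventually.of_forall fun z => ?_)
      change eta z ^ 2 * tau f N (fun z => It f 1 (Z z)) z = d * (eta z ^ 2 * tau f (N + 1) Z z)
      rw [htau]
      ring
    · intro Ψ
      unfold Jf
      have hm : mass f N (fun z => It f 1 (Z z)) = d * mass f (N + 1) Z := by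
        unfold mass
        rw [← integral_const_mul]
        refine integral_congr_ae (Eventually.of_forall fun z => ?_)
        change eta z ^ 2 * tau f N (fun z => It f 1 (Z z)) z = d * (eta z ^ 2 * tau f (N + 1) Z z)
        rw [htau]
        ring
      have hn : (∫ z, eta z ^ 2 * (Ψ (It f 1 (Z z)) * tau f N (fun z => It f 1 (Z z)) z)) =
          d * ∫ z, eta z ^ 2 * (Ψ (It f 1 (Z z)) * tau f (N + 1) Z z) := by
        rw [← integral_const_mul]
        refine integral_congr_ae (Eventually.of_forall fun z => ?_)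
        change eta z ^ 2 * (Ψ (It f 1 (Z z)) * tau f N (fun z => It f 1 (Z z)) z) =
          d * (eta z ^ 2 * (Ψ (It f 1 (Z z)) * tau f (N + 1) Z z))
        rw [htau]
        ring
      rw [hm, hn, mul_div_mul_left _ _ hd0]

end Pool.Agent.P2
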