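import Pool.Agent.helper83.P2.SpecX

/-!
# Project p2 (MP_063734_an), row XFQ: frequencies of letters in dyadic blocks
-/

set_option autoImplicit false

namespace Pool.Agent.P2

open Metric Set Filter Topology Finset

noncomputable section

open Classical in
/-- row XFQ -/
theorem XFQ : XFQ_stmt := by
  intro ι _ ν m i
  refine ⟨?_, ?_, ?_⟩
  · intro b
    unfold Fq
    positivity
  · unfold Fq
    rw [← Finset.sum_div, div_le_one (by positivity)]
    have h1 : ∑ b : ι, (#{k ∈ Finset.Ico (i * 2 ^ m) ((i + 1) * 2 ^ m) | ν k = some b} : ℕ) ≤ 2 ^ m := by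
      have h2 : ∑ b : ι, (#{k ∈ Finset.Ico (i * 2 ^ m) ((i + 1) * 2 ^ m) | ν k = some b} : ℕ) ≤
          #(Finset.Ico (i * 2 ^ m) ((i + 1) * 2 ^ m)) := by
        rw [← Finset.card_biUnion]
        · exact Finset.card_le_card (Finset.biUnion_subset.2 fun b _ => Finset.filter_subset _ _)
        · intro b _ b' _ hbb
          rw [Function.onFun, Finset.disjoint_left]
          intro k hk hk'
          rw [Finset.mem_filter] at hk hk'
          exact hbb (Option.some.inj (hk.2.symm.trans hk'.2))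
      refine h2.trans ?_
      rw [Nat.card_Ico, add_mul, one_mul, Nat.add_sub_cancel_left]
    exact_mod_cast h1
  · intro b
    unfold Fq
    have h1 : (Finset.Ico (i * 2 ^ (m + 1)) ((i + 1) * 2 ^ (m + 1))) =
        Finset.Ico (2 * i * 2 ^ m) ((2 * i + 1) * 2 ^ m) ∪ Finset.Ico ((2 * i + 1) * 2 ^ m) ((2 * i + 1 + 1) * 2 ^ m) := by
      rw [Finset.Ico_union_Ico_eq_Ico]
      · congr 1 <;> ring
      · exact Nat.mul_le_mul_right _ (by omega)
      · exact Nat.mul_le_mul_right _ (by omega)
    have h2 : #{k ∈ Finset.Ico (i * 2 ^ (m + 1)) ((i + 1) * 2 ^ (m + 1)) | ν k = some b} =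
        #{k ∈ Finset.Ico (2 * i * 2 ^ m) ((2 * i + 1) * 2 ^ m) | ν k = some b} +
        #{k ∈ Finset.Ico ((2 * i + 1) * 2 ^ m) ((2 * i + 1 + 1) * 2 ^ m) | ν k = some b} := by
      rw [h1, Finset.filter_union, Finset.card_union_of_disjoint]
      exact Finset.disjoint_filter_filter (Finset.Ico_disjoint_Ico_consecutive _ _ _)
    rw [h2]
    push_cast
    rw [pow_succ]
    field_simp

end

end Pool.Agent.P2
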