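import Pool.Agent.helper15.P2.SpecB
import Pool.Agent.helper49.P2.OSG

/-! # Row p2:BPI. Implicit function along a compact disc, with a parameter -/

set_option autoImplicit false

open scoped ContDiff Topology ComplexConjugate ENNReal
open MeasureTheory Filter Set Metric

namespace Pool.Agent.P2B

open Pool.Agent.P2 Pool.Agent.P2I

/-- local implicit function theorem -/
theorem BPI_loc (Φ : ℂ × ℂ × ℂ → ℂ) (O : Set (ℂ × ℂ × ℂ)) (x₀ : ℂ) (q₀ : ℂ × ℂ) (hO : IsOpen O)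
    (hΦ : DifferentiableOn ℂ Φ O) (h1 : (x₀, q₀) ∈ O) (h2 : Φ (x₀, q₀) = 0)
    (h3 : fderiv ℂ Φ (x₀, q₀) (1, 0, 0) ≠ 0) :
    ∃ ψ : ℂ × ℂ → ℂ, DifferentiableAt ℂ ψ q₀ ∧ ψ q₀ = x₀ ∧ ∀ᶠ q in 𝓝 q₀, Φ (ψ q, q) = 0 := by
  have hC : ContDiffAt ℂ 1 Φ (x₀, q₀) :=
    (OSG_nat hO 1 hΦ).contDiffAt (hO.mem_nhds h1)
  have hs : HasStrictFDerivAt Φ (fderiv ℂ Φ (x₀, q₀)) (x₀, q₀) :=
    hC.hasStrictFDerivAt one_ne_zero
  -- swap the variables
  set sw : (ℂ × ℂ) × ℂ →L[ℂ] ℂ × ℂ × ℂ :=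
    (ContinuousLinearMap.snd ℂ (ℂ × ℂ) ℂ).prod (ContinuousLinearMap.fst ℂ (ℂ × ℂ) ℂ) with hsw
  have hswa : ∀ u : (ℂ × ℂ) × ℂ, sw u = (u.2, u.1) := fun u => rfl
  set f : (ℂ × ℂ) × ℂ → ℂ := fun u => Φ (u.2, u.1) with hf
  have hfs : HasStrictFDerivAt f ((fderiv ℂ Φ (x₀, q₀)).comp sw) (q₀, x₀) := by
    have hh : HasStrictFDerivAt (fun u => sw u) sw (q₀, x₀) := sw.hasStrictFDerivAt
    have hs' : HasStrictFDerivAt Φ (fderiv ℂ Φ (x₀, q₀)) (sw (q₀, x₀)) := hs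
    exact hs'.comp (q₀, x₀) hh
  set F' : (ℂ × ℂ) × ℂ →L[ℂ] ℂ := (fderiv ℂ Φ (x₀, q₀)).comp sw with hF'
  set A : ℂ := fderiv ℂ Φ (x₀, q₀) (1, 0, 0) with hA
  have hinv : (F' ∘L ContinuousLinearMap.inr ℂ (ℂ × ℂ) ℂ).IsInvertible := by
    refine ⟨ContinuousLinearEquiv.unitsEquivAut ℂ (Units.mk0 A h3), ?_⟩
    refine ContinuousLinearMap.ext_ring ?_
    show (1 : ℂ) * A = fderiv ℂ Φ (x₀, q₀) (1, 0)
    rw [one_mul]
    rfl
  refine ⟨hfs.implicitFunctionOfProdDomain hinv, ?_, ?_, ?_⟩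
  · exact (hfs.hasStrictFDerivAt_implicitFunctionOfProdDomain hinv).hasFDerivAt.differentiableAt
  · exact (hfs.eventually_apply_eq_iff_implicitFunctionOfProdDomain hinv).self_of_nhds.mp rfl
  · have h4 := hfs.eventually_apply_implicitFunctionOfProdDomain hinv
    refine h4.mono fun q hq => ?_
    have h5 : f (q₀, x₀) = 0 := h2
    rw [h5] at hq
    exact hq

theorem BPI : BPI_stmt := by
  intro Φ O X p₀ R R' hO hΦ hR'0 hR'R hX hz
  set D : ℂ × ℂ × ℂ → ℂ := fun q => fderiv ℂ Φ q (1, 0, 0) with hD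
  have hDc : ContinuousOn D O := (OSG_cont hO hΦ).clm_apply continuousOn_const
  set K : Set ℂ := closedBall (0 : ℂ) R' with hK
  have hKc : IsCompact K := isCompact_closedBall _ _
  have hKR : ∀ t ∈ K, t ∈ ball (0 : ℂ) R := fun t ht => closedBall_subset_ball hR'R ht
  have hXc : ∀ t ∈ K, ContinuousAt X t := fun t ht =>
    ((hX t (hKR t ht)).differentiableAt (isOpen_ball.mem_nhds (hKR t ht))).continuousAt
  set A : ℂ → ℂ := fun t => D (X t, t, p₀) with hA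
  have hι : ∀ t ∈ K, ContinuousAt (fun t : ℂ => (X t, t, p₀)) t := fun t ht =>
    (hXc t ht).prodMk (continuousAt_id.prodMk continuousAt_const)
  have hAc : ∀ t ∈ K, ContinuousAt A t := by
    intro t ht
    have h1 : ContinuousAt D (X t, t, p₀) := hDc.continuousAt (hO.mem_nhds (hz t (hKR t ht)).1)
    exact ContinuousAt.comp (f := fun t : ℂ => (X t, t, p₀)) h1 (hι t ht)
  -- lower bound for `A`
  obtain ⟨m, hm, hmA⟩ : ∃ m : ℝ, 0 < m ∧ ∀ t ∈ K, m ≤ ‖A t‖ := by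
    obtain ⟨t₁, ht₁, h1⟩ := hKc.exists_isMinOn ⟨0, mem_closedBall_self hR'0.le⟩
      (f := fun t => ‖A t‖) (fun t ht => (hAc t ht).norm.continuousWithinAt)
    exact ⟨‖A t₁‖, norm_pos_iff.2 (hz t₁ (hKR t₁ ht₁)).2.2, fun t ht => h1 ht⟩
  -- uniform closeness
  have hev : ∀ᶠ z : ℂ × ℂ in 𝓝 ((0 : ℂ), p₀), ∀ t ∈ K,
      (X t + z.1, t, z.2) ∈ O ∧ ‖D (X t + z.1, t, z.2) - A t‖ < m / 4 := by
    apply hKc.eventually_forall_of_forall_eventually (P := fun (z : ℂ × ℂ) (t : ℂ) =>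
      (X t + z.1, t, z.2) ∈ O ∧ ‖D (X t + z.1, t, z.2) - A t‖ < m / 4)
    intro t ht
    have hc : ContinuousAt (fun w : (ℂ × ℂ) × ℂ => (X w.2 + w.1.1, w.2, w.1.2)) (((0 : ℂ), p₀), t) := by
      have h1 : ContinuousAt (fun w : (ℂ × ℂ) × ℂ => X w.2) (((0 : ℂ), p₀), t) :=
        ContinuousAt.comp (f := fun w : (ℂ × ℂ) × ℂ => w.2) (g := X) (hXc t ht) continuousAt_snd
      exact (h1.add (continuousAt_fst.fst)).prodMk
        (continuousAt_snd.prodMk continuousAt_fst.snd)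
    have hv : (X t + (0 : ℂ), t, p₀) = (X t, t, p₀) := by rw [add_zero]
    have h2 : (X t + (0 : ℂ), t, p₀) ∈ O := by rw [hv]; exact (hz t (hKR t ht)).1
    have h3 : ∀ᶠ w : (ℂ × ℂ) × ℂ in 𝓝 (((0 : ℂ), p₀), t), (X w.2 + w.1.1, w.2, w.1.2) ∈ O :=
      hc.eventually_mem (hO.mem_nhds h2)
    have h4 : ContinuousAt (fun w : (ℂ × ℂ) × ℂ => D (X w.2 + w.1.1, w.2, w.1.2) - A w.2)
        (((0 : ℂ), p₀), t) := by
      refine ContinuousAt.sub ?_ ?_
      · exact ContinuousAt.comp (f := fun w : (ℂ × ℂ) × ℂ => (X w.2 + w.1.1, w.2, w.1.2)) (g := D)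
          (hDc.continuousAt (hO.mem_nhds h2)) hc
      · exact ContinuousAt.comp (f := fun w : (ℂ × ℂ) × ℂ => w.2) (g := A) (hAc t ht)
          continuousAt_snd
    have h5 : ‖D (X t + (0 : ℂ), t, p₀) - A t‖ < m / 4 := by
      rw [hv, hA, sub_self, norm_zero]
      linarith
    have h6 : ∀ᶠ w : (ℂ × ℂ) × ℂ in 𝓝 (((0 : ℂ), p₀), t),
        ‖D (X w.2 + w.1.1, w.2, w.1.2) - A w.2‖ < m / 4 :=
      h4.norm.eventually_lt_const h5
    exact h3.and h6
  obtain ⟨r, hr, hball⟩ := Metric.eventually_nhds_iff_ball.1 hev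
  set ε : ℝ := r / 2 with hε
  have hε0 : 0 < ε := by positivity
  have hclose : ∀ t ∈ K, ∀ p ∈ ball p₀ ε, ∀ x ∈ closedBall (X t) ε,
      (x, t, p) ∈ O ∧ ‖D (x, t, p) - A t‖ < m / 4 := by
    intro t ht p hp x hx
    have h1 : (x - X t, p) ∈ ball ((0 : ℂ), p₀) r := by
      rw [mem_ball, Prod.dist_eq, max_lt_iff, dist_zero_right]
      rw [mem_closedBall, dist_eq_norm] at hx
      rw [mem_ball] at hp
      constructor
      · show ‖x - X t‖ < r
        linarith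
      · show dist p p₀ < r
        linarith
    have h2 := hball _ h1 t ht
    simp only [add_sub_cancel] at h2
    exact h2
  -- small values
  have hev2 : ∀ᶠ p in 𝓝 p₀, ∀ t ∈ K, ‖Φ (X t, t, p)‖ < m * ε / 2 := by
    apply hKc.eventually_forall_of_forall_eventually (P := fun (p : ℂ) (t : ℂ) =>
      ‖Φ (X t, t, p)‖ < m * ε / 2)
    intro t ht
    have hc : ContinuousAt (fun w : ℂ × ℂ => (X w.2, w.2, w.1)) (p₀, t) := by
      have h1 : ContinuousAt (fun w : ℂ × ℂ => X w.2) (p₀, t) :=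
        ContinuousAt.comp (f := fun w : ℂ × ℂ => w.2) (g := X) (hXc t ht) continuousAt_snd
      exact h1.prodMk (continuousAt_snd.prodMk continuousAt_fst)
    have h2 := hz t (hKR t ht)
    have h3 : ContinuousAt (fun w : ℂ × ℂ => Φ (X w.2, w.2, w.1)) (p₀, t) :=
      ContinuousAt.comp (f := fun w : ℂ × ℂ => (X w.2, w.2, w.1)) (g := Φ)
        (hΦ.continuousOn.continuousAt (hO.mem_nhds h2.1)) hc
    refine h3.norm.eventually_lt_const ?_
    show ‖Φ (X t, t, p₀)‖ < m * ε / 2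
    rw [h2.2.1, norm_zero]
    positivity
  obtain ⟨r₂, hr₂, hball₂⟩ := Metric.eventually_nhds_iff_ball.1 hev2
  set δ : ℝ := min ε r₂ with hδ
  have hδ0 : 0 < δ := lt_min hε0 hr₂
  have hpε : ∀ p ∈ ball p₀ δ, p ∈ ball p₀ ε := fun p hp => ball_subset_ball (min_le_left _ _) hp
  have hpr : ∀ p ∈ ball p₀ δ, p ∈ ball p₀ r₂ := fun p hp => ball_subset_ball (min_le_right _ _) hp
  -- one variable
  have hder : ∀ t ∈ K, ∀ p ∈ ball p₀ δ, ∀ x ∈ closedBall (X t) ε,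
      HasDerivAt (fun x => Φ (x, t, p)) (D (x, t, p)) x := by
    intro t ht p hp x hx
    have h1 := (hclose t ht p (hpε p hp) x hx).1
    have h2 : HasFDerivAt Φ (fderiv ℂ Φ (x, t, p)) (x, t, p) :=
      (hΦ.differentiableAt (hO.mem_nhds h1)).hasFDerivAt
    have h3 : HasDerivAt (fun x : ℂ => (x, t, p)) ((1 : ℂ), ((0 : ℂ), (0 : ℂ))) x := by
      have := (hasDerivAt_id x).prodMk (hasDerivAt_const x ((t, p) : ℂ × ℂ))
      exact this
    exact h2.comp_hasDerivAt x h3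
  have hlip : ∀ t ∈ K, ∀ p ∈ ball p₀ δ, ∀ x ∈ closedBall (X t) ε, ∀ y ∈ closedBall (X t) ε,
      ‖Φ (y, t, p) - Φ (x, t, p) - A t * (y - x)‖ ≤ m / 4 * ‖y - x‖ := by
    intro t ht p hp x hx y hy
    have h1 : ∀ z ∈ closedBall (X t) ε, HasDerivWithinAt (fun x => Φ (x, t, p) - A t * x)
        (D (z, t, p) - A t) (closedBall (X t) ε) z := by
      intro z hz
      have h2 := (hder t ht p hp z hz).sub ((hasDerivAt_id z).const_mul (A t))
      rw [mul_one] at h2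
      exact h2.hasDerivWithinAt
    have h2 := (convex_closedBall (X t) ε).norm_image_sub_le_of_norm_hasDerivWithin_le h1
      (fun z hz => (hclose t ht p (hpε p hp) z hz).2.le) hx hy
    have h3 : Φ (y, t, p) - A t * y - (Φ (x, t, p) - A t * x) =
        Φ (y, t, p) - Φ (x, t, p) - A t * (y - x) := by ring
    rw [h3] at h2
    exact h2
  have huniq : ∀ t ∈ K, ∀ p ∈ ball p₀ δ, ∀ x ∈ closedBall (X t) ε, ∀ y ∈ closedBall (X t) ε,
      Φ (x, t, p) = Φ (y, t, p) → x = y := by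
    intro t ht p hp x hx y hy h
    have h1 := hlip t ht p hp x hx y hy
    rw [h, sub_self, zero_sub, norm_neg, norm_mul] at h1
    have h2 := hmA t ht
    by_contra hne
    have h3 : 0 < ‖y - x‖ := norm_pos_iff.2 (sub_ne_zero.2 (Ne.symm hne))
    have h4 : m * ‖y - x‖ ≤ m / 4 * ‖y - x‖ :=
      (mul_le_mul_of_nonneg_right h2 h3.le).trans h1
    nlinarith
  -- existence
  have hex : ∀ q : ℂ × ℂ, ∃ y : ℂ, q.1 ∈ K → q.2 ∈ ball p₀ δ →
      y ∈ ball (X q.1) ε ∧ Φ (y, q.1, q.2) = 0 := by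
    intro q
    by_cases hq : q.1 ∈ K ∧ q.2 ∈ ball p₀ δ
    swap
    · exact ⟨0, fun h1 h2 => absurd ⟨h1, h2⟩ hq⟩
    obtain ⟨ht, hp⟩ := hq
    set t := q.1 with ht'
    set p := q.2 with hp'
    have hAt : 0 < ‖A t‖ := lt_of_lt_of_le hm (hmA t ht)
    have hAt0 : A t ≠ 0 := norm_pos_iff.1 hAt
    set T : ℂ → ℂ := fun x => x - Φ (x, t, p) / A t with hT
    have hTl : ∀ x ∈ closedBall (X t) ε, ∀ y ∈ closedBall (X t) ε,
        ‖T y - T x‖ ≤ 1 / 4 * ‖y - x‖ := by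
      intro x hx y hy
      have h1 := hlip t ht p hp x hx y hy
      have h2 : T y - T x = -(Φ (y, t, p) - Φ (x, t, p) - A t * (y - x)) / A t := by
        rw [hT]
        field_simp
        ring
      rw [h2, norm_div, norm_neg, div_le_iff₀ hAt]
      refine h1.trans ?_
      have h3 := hmA t ht
      nlinarith [norm_nonneg (y - x)]
    have hXm : X t ∈ closedBall (X t) ε := mem_closedBall_self hε0.le
    have hT0 : ‖T (X t) - X t‖ < ε / 2 := by
      have h1 := hball₂ p (hpr p hp) t ht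
      have h2 : T (X t) - X t = -Φ (X t, t, p) / A t := by
        rw [hT]
        ring
      rw [h2, norm_div, norm_neg, div_lt_iff₀ hAt]
      refine h1.trans_le ?_
      have h3 := hmA t ht
      nlinarith
    have hTb : ∀ x ∈ closedBall (X t) ε, ‖T x - X t‖ < ε := by
      intro x hx
      have h1 := hTl (X t) hXm x hx
      rw [mem_closedBall, dist_eq_norm] at hx
      calc ‖T x - X t‖ = ‖(T x - T (X t)) + (T (X t) - X t)‖ := by congr 1; ring
        _ ≤ ‖T x - T (X t)‖ + ‖T (X t) - X t‖ := norm_add_le _ _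
        _ < ε := by linarith
    have hmaps : MapsTo T (closedBall (X t) ε) (closedBall (X t) ε) := by
      intro x hx
      rw [mem_closedBall, dist_eq_norm]
      exact (hTb x hx).le
    have hcontr : ContractingWith (1 / 4) (hmaps.restrict T _ _) := by
      constructor
      · rw [← NNReal.coe_lt_coe]
        norm_num
      · apply LipschitzWith.of_dist_le_mul
        intro x y
        rw [Subtype.dist_eq, Subtype.dist_eq, dist_eq_norm, dist_eq_norm]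
        have h1 := hTl y y.2 x x.2
        simp only [MapsTo.val_restrict_apply]
        push_cast
        exact h1
    obtain ⟨y, hy, hfix, -⟩ := ContractingWith.exists_fixedPoint'
      (isClosed_closedBall.isComplete) hmaps hcontr hXm (edist_ne_top _ _)
    refine ⟨y, fun _ _ => ⟨?_, ?_⟩⟩
    · have h1 := hTb y hy
      have h2 : T y = y := hfix
      rw [h2] at h1
      rw [mem_ball, dist_eq_norm]
      exact h1
    · have h2 : T y = y := hfix
      rw [hT] at h2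
      simp only [sub_eq_self, div_eq_zero_iff] at h2
      rcases h2 with h2 | h2
      · exact h2
      · exact absurd h2 hAt0
  choose Y hY using hex
  have hKb : ∀ t ∈ ball (0 : ℂ) R', t ∈ K := fun t ht => ball_subset_closedBall ht
  refine ⟨ε, δ, Y, hε0, hδ0, ?_, ?_, ?_⟩
  · rintro ⟨t₁, p₁⟩ ⟨ht₁, hp₁⟩
    simp only at ht₁ hp₁
    obtain ⟨h1, h2⟩ := hY (t₁, p₁) (hKb t₁ ht₁) hp₁
    simp only at h1 h2
    have h3 := hclose t₁ (hKb t₁ ht₁) p₁ (hpε p₁ hp₁) _ (ball_subset_closedBall h1)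
    have h4 : fderiv ℂ Φ (Y (t₁, p₁), t₁, p₁) (1, 0, 0) ≠ 0 := by
      intro h
      have h5 : D (Y (t₁, p₁), t₁, p₁) = 0 := h
      have h6 := h3.2
      rw [h5, zero_sub, norm_neg] at h6
      have := hmA t₁ (hKb t₁ ht₁)
      linarith
    obtain ⟨ψ, hψ1, hψ2, hψ3⟩ := BPI_loc Φ O (Y (t₁, p₁)) (t₁, p₁) hO hΦ h3.1 h2 h4
    have hψc : ContinuousAt ψ (t₁, p₁) := hψ1.continuousAt
    have hXf : ContinuousAt (fun q : ℂ × ℂ => X q.1) (t₁, p₁) :=
      ContinuousAt.comp (f := fun q : ℂ × ℂ => q.1) (g := X) (hXc t₁ (hKb t₁ ht₁)) continuousAt_fst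
    have e1 : ∀ᶠ q : ℂ × ℂ in 𝓝 (t₁, p₁), ‖ψ q - X q.1‖ < ε := by
      refine (hψc.sub hXf).norm.eventually_lt_const ?_
      show ‖ψ (t₁, p₁) - X t₁‖ < ε
      rw [hψ2, ← dist_eq_norm]
      exact h1
    have e2 : ∀ᶠ q : ℂ × ℂ in 𝓝 (t₁, p₁), q ∈ ball (0 : ℂ) R' ×ˢ ball p₀ δ :=
      (isOpen_ball.prod isOpen_ball).eventually_mem ⟨ht₁, hp₁⟩
    have e3 : Y =ᶠ[𝓝 (t₁, p₁)] ψ := by
      filter_upwards [e1, e2, hψ3] with q q1 q2 q3
      have h5 := hY q (hKb _ q2.1) q2.2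
      refine huniq q.1 (hKb _ q2.1) q.2 q2.2 _ (ball_subset_closedBall h5.1) _ ?_ ?_
      · rw [mem_closedBall, dist_eq_norm]
        exact q1.le
      · rw [h5.2]
        exact q3.symm
    exact (hψ1.congr_of_eventuallyEq e3).differentiableWithinAt
  · intro t ht
    have hp : p₀ ∈ ball p₀ δ := mem_ball_self hδ0
    obtain ⟨h1, h2⟩ := hY (t, p₀) (hKb t ht) hp
    simp only at h1 h2
    refine huniq t (hKb t ht) p₀ hp _ (ball_subset_closedBall h1) _ (mem_closedBall_self hε0.le) ?_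
    rw [h2, (hz t (hKR t (hKb t ht))).2.1]
  · intro t ht p hp
    obtain ⟨h1, h2⟩ := hY (t, p) (hKb t ht) hp
    simp only at h1 h2
    have h3 := hclose t (hKb t ht) p (hpε p hp) _ (ball_subset_closedBall h1)
    refine ⟨h3.1, h2, ?_, h1, ?_⟩
    · intro h
      have h5 : D (Y (t, p), t, p) = 0 := h
      have h6 := h3.2
      rw [h5, zero_sub, norm_neg] at h6
      have := hmA t (hKb t ht)
      linarith
    · intro x hx hxO hx0
      refine huniq t (hKb t ht) p hp _ (ball_subset_closedBall hx) _ (ball_subset_closedBall h1) ?_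
      rw [hx0, h2]

end Pool.Agent.P2B
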