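import Pool.Agent.helper15.P2.SpecB
import Pool.Agent.helper49.P2.OSG

/-! # Row p2:BSM. The sheet map -/

set_option autoImplicit false
set_option linter.unusedVariables false

open scoped ContDiff Topology ComplexConjugate ENNReal
open MeasureTheory Filter Set Metric

namespace Pool.Agent.P2B

open Pool.Agent.P2 Pool.Agent.P2I

/-- a sheet over the disc of radius `ρ` -/
def BSM_S (P Q : ℂ × ℂ → ℂ) (ρ : ℝ) (x0 : ℂ) (X : ℂ → ℂ) : Prop :=
  DifferentiableOn ℂ X (ball 0 ρ) ∧ X 0 = x0 ∧ ∀ v ∈ ball (0 : ℂ) ρ, X v ∈ ball (0 : ℂ) (1 / 2) ∧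
    P (X v, v) * Q (x0, 0) = Q (X v, v) * P (x0, 0) ∧ Wr (sl P v) (sl Q v) (X v) ≠ 0

theorem BSM_mono {P Q : ℂ × ℂ → ℂ} {ρ ρ' : ℝ} {x0 : ℂ} {X : ℂ → ℂ} (h : BSM_S P Q ρ x0 X)
    (hρ : ρ' ≤ ρ) : BSM_S P Q ρ' x0 X :=
  ⟨h.1.mono (ball_subset_ball hρ), h.2.1, fun v hv => h.2.2 v (ball_subset_ball hρ hv)⟩

theorem BSM_half {x : ℂ} (h : x ∈ ball (0 : ℂ) (1 / 2)) : x ∈ ball (0 : ℂ) 1 :=
  ball_subset_ball (by norm_num) h

/-- proportional vectors -/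
theorem BSM_prop {p q a b : ℂ} (h1 : p ≠ 0 ∨ q ≠ 0) (h2 : a ≠ 0 ∨ b ≠ 0) (h : p * b = q * a) :
    ∃ μ : ℂ, μ ≠ 0 ∧ p = μ * a ∧ q = μ * b := by
  by_cases ha : a = 0
  · have hb : b ≠ 0 := by
      rcases h2 with h2 | h2
      · exact absurd ha h2
      · exact h2
    rw [ha, mul_zero] at h
    have hp : p = 0 := by
      rcases mul_eq_zero.1 h with h3 | h3
      · exact h3
      · exact absurd h3 hb
    have hq : q ≠ 0 := by
      rcases h1 with h1 | h1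
      · exact absurd hp h1
      · exact h1
    refine ⟨q / b, div_ne_zero hq hb, ?_, ?_⟩
    · rw [ha, mul_zero, hp]
    · rw [div_mul_cancel₀ _ hb]
  · have hp : p ≠ 0 := by
      intro hp
      rw [hp, zero_mul] at h
      rcases mul_eq_zero.1 h.symm with h3 | h3
      · rcases h1 with h1 | h1
        · exact h1 hp
        · exact h1 h3
      · exact ha h3
    refine ⟨p / a, div_ne_zero hp ha, ?_, ?_⟩
    · rw [div_mul_cancel₀ _ ha]
    · rw [div_mul_eq_mul_div, h, mul_div_assoc, div_self ha, mul_one]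

/-- local uniqueness of the solution of an equation -/
theorem BSM_loc (F : ℂ × ℂ → ℂ) (U : Set (ℂ × ℂ)) (x₁ v₁ : ℂ) (hU : IsOpen U)
    (hF : DifferentiableOn ℂ F U) (h1 : (x₁, v₁) ∈ U) (h3 : fderiv ℂ F (x₁, v₁) (1, 0) ≠ 0)
    (X X' : ℂ → ℂ) (hX : ContinuousAt X v₁) (hX' : ContinuousAt X' v₁) (e : X v₁ = x₁)
    (e' : X' v₁ = x₁) (hz : ∀ᶠ v in 𝓝 v₁, F (X v, v) = F (X' v, v)) : X =ᶠ[𝓝 v₁] X' := by
  have hC : ContDiffAt ℂ 1 F (x₁, v₁) := (OSG_nat hU 1 hF).contDiffAt (hU.mem_nhds h1)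
  have hs : HasStrictFDerivAt F (fderiv ℂ F (x₁, v₁)) (x₁, v₁) := hC.hasStrictFDerivAt one_ne_zero
  have ho := hs.isLittleO
  have hm : 0 < ‖fderiv ℂ F (x₁, v₁) (1, 0)‖ := norm_pos_iff.2 h3
  have ho2 := ho.def (half_pos hm)
  have ht : Tendsto (fun v : ℂ => ((X v, v), (X' v, v))) (𝓝 v₁) (𝓝 ((x₁, v₁), (x₁, v₁))) := by
    have t1 : Tendsto X (𝓝 v₁) (𝓝 x₁) := by rw [← e]; exact hX
    have t2 : Tendsto X' (𝓝 v₁) (𝓝 x₁) := by rw [← e']; exact hX'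
    exact (t1.prodMk_nhds tendsto_id).prodMk_nhds (t2.prodMk_nhds tendsto_id)
  filter_upwards [ht.eventually ho2, hz] with v hv hv2
  rw [hv2, sub_self, zero_sub, norm_neg, Prod.mk_sub_mk, sub_self] at hv
  by_contra hne
  have h4 : 0 < ‖X v - X' v‖ := norm_pos_iff.2 (sub_ne_zero.2 hne)
  have h5 : ((X v - X' v, 0) : ℂ × ℂ) = (X v - X' v) • ((1, 0) : ℂ × ℂ) := by
    rw [Prod.smul_mk, smul_zero, smul_eq_mul, mul_one]
  rw [h5, map_smul, norm_smul, norm_smul] at hv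
  have h6 : ‖((1, 0) : ℂ × ℂ)‖ = 1 := by simp
  rw [h6, mul_one] at hv
  nlinarith

/-- partial derivative along the first variable -/
theorem BSM_fd (P _Q : ℂ × ℂ → ℂ) (hP : DifferentiableOn ℂ P BI) (x v : ℂ)
    (hx : x ∈ ball (0 : ℂ) 1) (hv : v ∈ ball (0 : ℂ) 1) :
    HasDerivAt (sl P v) (deriv (sl P v) x) x ∧ DifferentiableAt ℂ P (x, v) := by
  have hopen : IsOpen BI := isOpen_ball.prod isOpen_ball
  have h1 : DifferentiableAt ℂ P (x, v) := hP.differentiableAt (hopen.mem_nhds ⟨hx, hv⟩)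
  refine ⟨?_, h1⟩
  have h2 : HasDerivAt (fun x : ℂ => (x, v)) ((1 : ℂ), (0 : ℂ)) x :=
    (hasDerivAt_id x).prodMk (hasDerivAt_const x v)
  exact (h1.hasFDerivAt.comp_hasDerivAt x h2).differentiableAt.hasDerivAt

theorem BSM_uniq {P Q : ℂ × ℂ → ℂ} {E ρ : ℝ} (hN : ND P Q E) (hρ : ρ ≤ 1) {x0 x0' : ℂ}
    {X X' : ℂ → ℂ} (hX : BSM_S P Q ρ x0 X) (hX' : BSM_S P Q ρ x0' X') {v₁ : ℂ}
    (hv₁ : v₁ ∈ ball (0 : ℂ) ρ) (e : X v₁ = X' v₁) : ∀ v ∈ ball (0 : ℂ) ρ, X v = X' v := by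
  have hopen : IsOpen BI := isOpen_ball.prod isOpen_ball
  have hρ0 : 0 < ρ := lt_of_le_of_lt (norm_nonneg v₁) (by rwa [mem_ball_zero_iff] at hv₁)
  have hsub : ∀ v ∈ ball (0 : ℂ) ρ, v ∈ ball (0 : ℂ) 1 := fun v hv => ball_subset_ball hρ hv
  have h00 : (0 : ℂ) ∈ ball (0 : ℂ) 1 := mem_ball_self one_pos
  have hx0 : x0 ∈ ball (0 : ℂ) 1 := by
    have := BSM_half (hX.2.2 0 (mem_ball_self hρ0)).1
    rwa [hX.2.1] at this
  have hx0' : x0' ∈ ball (0 : ℂ) 1 := by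
    have := BSM_half (hX'.2.2 0 (mem_ball_self hρ0)).1
    rwa [hX'.2.1] at this
  have hne0 : P (x0, 0) ≠ 0 ∨ Q (x0, 0) ≠ 0 := hN.ne _ ⟨hx0, h00⟩
  have hne0' : P (x0', 0) ≠ 0 ∨ Q (x0', 0) ≠ 0 := hN.ne _ ⟨hx0', h00⟩
  obtain ⟨h1a, h1b, h1c⟩ := hX.2.2 v₁ hv₁
  obtain ⟨h2a, h2b, h2c⟩ := hX'.2.2 v₁ hv₁
  have hne1 : P (X v₁, v₁) ≠ 0 ∨ Q (X v₁, v₁) ≠ 0 := hN.ne _ ⟨BSM_half h1a, hsub v₁ hv₁⟩
  obtain ⟨μ, hμ, m1, m2⟩ := BSM_prop hne1 hne0 h1b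
  rw [← e] at h2b
  obtain ⟨μ', hμ', m1', m2'⟩ := BSM_prop hne1 hne0' h2b
  set a := P (x0, 0) with ha
  set b := Q (x0, 0) with hb
  set F : ℂ × ℂ → ℂ := fun p => P p * b - Q p * a with hF
  have hFd : DifferentiableOn ℂ F BI := (hN.dP.mul_const b).sub (hN.dQ.mul_const a)
  have hp1 : (X v₁, v₁) ∈ BI := ⟨BSM_half h1a, hsub v₁ hv₁⟩
  have hder : fderiv ℂ F (X v₁, v₁) (1, 0) = deriv (sl P v₁) (X v₁) * b - deriv (sl Q v₁) (X v₁) * a := by
    have d1 : HasFDerivAt F (fderiv ℂ F (X v₁, v₁)) (X v₁, v₁) :=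
      (hFd.differentiableAt (hopen.mem_nhds hp1)).hasFDerivAt
    have d2 : HasDerivAt (fun x : ℂ => (x, v₁)) ((1 : ℂ), (0 : ℂ)) (X v₁) :=
      (hasDerivAt_id _).prodMk (hasDerivAt_const _ v₁)
    have d3 := d1.comp_hasDerivAt (X v₁) d2
    have d4 := ((BSM_fd P Q hN.dP _ _ hp1.1 hp1.2).1.mul_const b).sub
      ((BSM_fd Q P hN.dQ _ _ hp1.1 hp1.2).1.mul_const a)
    exact d3.unique d4
  have hder0 : fderiv ℂ F (X v₁, v₁) (1, 0) ≠ 0 := by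
    rw [hder]
    intro h
    apply h1c
    show Q (X v₁, v₁) * deriv (sl P v₁) (X v₁) - P (X v₁, v₁) * deriv (sl Q v₁) (X v₁) = 0
    rw [m1, m2]
    linear_combination μ * h
  have hXc : ∀ v ∈ ball (0 : ℂ) ρ, ContinuousAt X v := fun v hv =>
    (hX.1.differentiableAt (isOpen_ball.mem_nhds hv)).continuousAt
  have hXc' : ∀ v ∈ ball (0 : ℂ) ρ, ContinuousAt X' v := fun v hv =>
    (hX'.1.differentiableAt (isOpen_ball.mem_nhds hv)).continuousAt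
  have hz : ∀ᶠ v in 𝓝 v₁, F (X v, v) = F (X' v, v) := by
    filter_upwards [isOpen_ball.mem_nhds hv₁] with v hv
    have q1 := (hX.2.2 v hv).2.1
    have q2 := (hX'.2.2 v hv).2.1
    have q3 : F (X v, v) = 0 := by
      show P (X v, v) * b - Q (X v, v) * a = 0
      rw [sub_eq_zero]
      exact q1
    have q4 : F (X' v, v) = 0 := by
      show P (X' v, v) * b - Q (X' v, v) * a = 0
      have q5 : μ * (P (X' v, v) * b - Q (X' v, v) * a) = 0 := by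
        have r1 : P (X' v, v) * (μ' * Q (x0', 0)) = Q (X' v, v) * (μ' * P (x0', 0)) := by
          linear_combination μ' * q2
        rw [← m1', ← m2', m1, m2] at r1
        linear_combination r1
      rcases mul_eq_zero.1 q5 with q6 | q6
      · exact absurd q6 hμ
      · exact q6
    rw [q3, q4]
  have hev := BSM_loc F BI (X v₁) v₁ hopen hFd hp1 hder0 X X' (hXc v₁ hv₁) (hXc' v₁ hv₁) rfl e.symm hz
  exact (hX.1.analyticOnNhd isOpen_ball).eqOn_of_preconnected_of_eventuallyEq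
    (hX'.1.analyticOnNhd isOpen_ball) (convex_ball _ _).isPreconnected hv₁ hev

/-- holomorphic dependence of the sheet on the base point -/
theorem BSM_ext (hBPI : BPI_stmt) {P Q : ℂ × ℂ → ℂ} {E R R' : ℝ} (hN : ND P Q E) (hR : R ≤ 1)
    (hR'0 : 0 < R') (hR' : R' < R) {x0 : ℂ} {X : ℂ → ℂ} (hX : BSM_S P Q R x0 X) :
    ∃ (δ : ℝ) (Y : ℂ × ℂ → ℂ), 0 < δ ∧ DifferentiableOn ℂ Y (ball (0 : ℂ) R' ×ˢ ball x0 δ) ∧
      ∀ y ∈ ball x0 δ, y ∈ ball (0 : ℂ) (1 / 2) ∧ BSM_S P Q R' y (fun v => Y (v, y)) := by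
  have hR0 : 0 < R := hR'0.trans hR'
  have hopen : IsOpen BI := isOpen_ball.prod isOpen_ball
  have h00 : (0 : ℂ) ∈ ball (0 : ℂ) 1 := mem_ball_self one_pos
  have hx0h : x0 ∈ ball (0 : ℂ) (1 / 2) := by
    have := (hX.2.2 0 (mem_ball_self hR0)).1
    rwa [hX.2.1] at this
  have hx0 : x0 ∈ ball (0 : ℂ) 1 := BSM_half hx0h
  set O : Set (ℂ × ℂ × ℂ) := ball (0 : ℂ) (1 / 2) ×ˢ (ball (0 : ℂ) 1 ×ˢ ball (0 : ℂ) 1) with hO
  have hOo : IsOpen O := isOpen_ball.prod (isOpen_ball.prod isOpen_ball)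
  set Φ : ℂ × ℂ × ℂ → ℂ := fun q => P (q.1, q.2.1) * Q (q.2.2, 0) - Q (q.1, q.2.1) * P (q.2.2, 0) with hΦ
  have hm1 : MapsTo (fun q : ℂ × ℂ × ℂ => (q.1, q.2.1)) O BI := fun q hq =>
    ⟨BSM_half hq.1, hq.2.1⟩
  have hm2 : MapsTo (fun q : ℂ × ℂ × ℂ => (q.2.2, (0 : ℂ))) O BI := fun q hq => ⟨hq.2.2, h00⟩
  have d1 : DifferentiableOn ℂ (fun q : ℂ × ℂ × ℂ => (q.1, q.2.1)) O := by fun_prop
  have d2 : DifferentiableOn ℂ (fun q : ℂ × ℂ × ℂ => (q.2.2, (0 : ℂ))) O := by fun_prop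
  have hΦd : DifferentiableOn ℂ Φ O :=
    ((hN.dP.comp d1 hm1).mul (hN.dQ.comp d2 hm2)).sub ((hN.dQ.comp d1 hm1).mul (hN.dP.comp d2 hm2))
  have hder : ∀ x v y : ℂ, (x, v, y) ∈ O → fderiv ℂ Φ (x, v, y) (1, 0, 0) =
      deriv (sl P v) x * Q (y, 0) - deriv (sl Q v) x * P (y, 0) := by
    intro x v y hq
    have e1 : HasFDerivAt Φ (fderiv ℂ Φ (x, v, y)) (x, v, y) :=
      (hΦd.differentiableAt (hOo.mem_nhds hq)).hasFDerivAt
    have e2 : HasDerivAt (fun x : ℂ => (x, v, y)) ((1 : ℂ), ((0 : ℂ), (0 : ℂ))) x :=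
      (hasDerivAt_id x).prodMk (hasDerivAt_const x ((v, y) : ℂ × ℂ))
    have e3 := e1.comp_hasDerivAt x e2
    have e4 := ((BSM_fd P Q hN.dP _ _ (BSM_half hq.1) hq.2.1).1.mul_const (Q (y, 0))).sub
      ((BSM_fd Q P hN.dQ _ _ (BSM_half hq.1) hq.2.1).1.mul_const (P (y, 0)))
    exact e3.unique e4
  -- the relation between the derivative and `W`
  have hW : ∀ x v y : ℂ, (x, v, y) ∈ O → P (x, v) * Q (y, 0) = Q (x, v) * P (y, 0) →
      (fderiv ℂ Φ (x, v, y) (1, 0, 0) ≠ 0 ↔ Wr (sl P v) (sl Q v) x ≠ 0) := by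
    intro x v y hq h
    obtain ⟨μ, hμ, m1, m2⟩ := BSM_prop (hN.ne (x, v) ⟨BSM_half hq.1, hq.2.1⟩)
      (hN.ne (y, 0) ⟨hq.2.2, h00⟩) h
    have h3 : Wr (sl P v) (sl Q v) x = μ * fderiv ℂ Φ (x, v, y) (1, 0, 0) := by
      rw [hder x v y hq]
      show Q (x, v) * deriv (sl P v) x - P (x, v) * deriv (sl Q v) x = _
      rw [m1, m2]
      ring
    rw [h3]
    constructor
    · intro h4
      exact mul_ne_zero hμ h4
    · intro h4 h5
      rw [h5, mul_zero] at h4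
      exact h4 rfl
  have hsub : ∀ v ∈ ball (0 : ℂ) R, v ∈ ball (0 : ℂ) 1 := fun v hv => ball_subset_ball hR hv
  obtain ⟨ε, δ, Y, hε, hδ, hYd, hY0, hY⟩ := hBPI Φ O X x0 R R' hOo hΦd hR'0 hR' hX.1 (by
    intro t ht
    obtain ⟨q1, q2, q3⟩ := hX.2.2 t ht
    have hq : (X t, t, x0) ∈ O := ⟨q1, hsub t ht, hx0⟩
    refine ⟨hq, ?_, (hW _ _ _ hq q2).2 q3⟩
    show P (X t, t) * Q (x0, 0) - Q (X t, t) * P (x0, 0) = 0
    rw [q2, sub_self])
  have hx0n : ‖x0‖ < 1 / 2 := by rwa [mem_ball_zero_iff] at hx0h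
  set δ' : ℝ := min (min δ ε) (1 / 2 - ‖x0‖) with hδ'
  have hδ'0 : 0 < δ' := lt_min (lt_min hδ hε) (by linarith)
  refine ⟨δ', Y, hδ'0, hYd.mono ?_, ?_⟩
  · exact prod_mono le_rfl (ball_subset_ball ((min_le_left _ _).trans (min_le_left _ _)))
  intro y hy
  have hy1 : y ∈ ball x0 δ := ball_subset_ball ((min_le_left _ _).trans (min_le_left _ _)) hy
  have hy2 : y ∈ ball x0 ε := ball_subset_ball ((min_le_left _ _).trans (min_le_right _ _)) hy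
  have hy3 : y ∈ ball (0 : ℂ) (1 / 2) := by
    rw [mem_ball, dist_eq_norm] at hy
    rw [mem_ball_zero_iff]
    have h1 : δ' ≤ 1 / 2 - ‖x0‖ := min_le_right _ _
    calc ‖y‖ = ‖(y - x0) + x0‖ := by rw [sub_add_cancel]
      _ ≤ ‖y - x0‖ + ‖x0‖ := norm_add_le _ _
      _ < 1 / 2 := by linarith
  refine ⟨hy3, ?_, ?_, ?_⟩
  · refine hYd.comp (t := ball (0 : ℂ) R' ×ˢ ball x0 δ) (f := fun v : ℂ => (v, y)) ?_ ?_
    · fun_prop
    · intro v hv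
      exact ⟨hv, hy1⟩
  · have h0 : (0 : ℂ) ∈ ball (0 : ℂ) R' := mem_ball_self hR'0
    obtain ⟨-, -, -, -, hu⟩ := hY 0 h0 y hy1
    have h1 := hu y (by rw [hX.2.1]; exact hy2) ⟨hy3, h00, BSM_half hy3⟩ (by
      show P (y, 0) * Q (y, 0) - Q (y, 0) * P (y, 0) = 0
      ring)
    exact h1.symm
  · intro v hv
    obtain ⟨q1, q2, q3, -, -⟩ := hY v hv y hy1
    have q4 : P (Y (v, y), v) * Q (y, 0) = Q (Y (v, y), v) * P (y, 0) := by
      rw [← sub_eq_zero]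
      exact q2
    exact ⟨q1.1, q4, (hW _ _ _ q1 q4).1 q3⟩

theorem BSM_det (A : ℂ →L[ℂ] ℂ) : (A.restrictScalars ℝ).det = ‖A 1‖ ^ 2 := by
  have h1 : (A.restrictScalars ℝ).det = LinearMap.det ((A : ℂ →ₗ[ℂ] ℂ).restrictScalars ℝ) := rfl
  rw [h1, LinearMap.det_restrictScalars, Algebra.norm_complex_apply, LinearMap.det_ring,
    Complex.sq_norm]
  rfl

/-- the derivative of the sheet map -/
theorem BSM_der {P Q : ℂ × ℂ → ℂ} {E : ℝ} (hN : ND P Q E) (φ : ℂ → ℂ) (x0 v d : ℂ)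
    (hx0 : x0 ∈ ball (0 : ℂ) 1) (hv : v ∈ ball (0 : ℂ) 1) (hφ : φ x0 ∈ ball (0 : ℂ) 1)
    (hd : HasDerivAt φ d x0)
    (he : ∀ᶠ x in 𝓝 x0, P (φ x, v) * Q (x, 0) = Q (φ x, v) * P (x, 0)) :
    Complex.normSq d * sph (sl P v) (sl Q v) (φ x0) = sph (sl P 0) (sl Q 0) x0 := by
  have h00 : (0 : ℂ) ∈ ball (0 : ℂ) 1 := mem_ball_self one_pos
  have hPv := (BSM_fd P Q hN.dP _ _ hφ hv).1
  have hQv := (BSM_fd Q P hN.dQ _ _ hφ hv).1
  have hP0 := (BSM_fd P Q hN.dP _ _ hx0 h00).1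
  have hQ0 := (BSM_fd Q P hN.dQ _ _ hx0 h00).1
  have h1 : HasDerivAt (fun x => sl P v (φ x) * sl Q 0 x)
      (deriv (sl P v) (φ x0) * d * sl Q 0 x0 + sl P v (φ x0) * deriv (sl Q 0) x0) x0 :=
    (HasDerivAt.comp x0 hPv hd).mul hQ0
  have h2 : HasDerivAt (fun x => sl Q v (φ x) * sl P 0 x)
      (deriv (sl Q v) (φ x0) * d * sl P 0 x0 + sl Q v (φ x0) * deriv (sl P 0) x0) x0 :=
    (HasDerivAt.comp x0 hQv hd).mul hP0
  have h3 : (fun x => sl P v (φ x) * sl Q 0 x) =ᶠ[𝓝 x0] (fun x => sl Q v (φ x) * sl P 0 x) := he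
  have h4 := (h1.congr_of_eventuallyEq h3.symm).unique h2
  obtain ⟨μ, hμ, m1, m2⟩ := BSM_prop (hN.ne (φ x0, v) ⟨hφ, hv⟩) (hN.ne (x0, 0) ⟨hx0, h00⟩)
    he.self_of_nhds
  have m1' : sl P v (φ x0) = μ * sl P 0 x0 := m1
  have m2' : sl Q v (φ x0) = μ * sl Q 0 x0 := m2
  have h5 : d * Wr (sl P v) (sl Q v) (φ x0) = μ ^ 2 * Wr (sl P 0) (sl Q 0) x0 := by
    unfold Wr
    rw [m1', m2'] at h4 ⊢
    linear_combination μ * h4
  have hμ' : Complex.normSq μ ≠ 0 := (Complex.normSq_pos.2 hμ).ne'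
  have hS : Complex.normSq (sl P 0 x0) + Complex.normSq (sl Q 0 x0) ≠ 0 := by
    have g1 := Complex.normSq_nonneg (sl P 0 x0)
    have g2 := Complex.normSq_nonneg (sl Q 0 x0)
    rcases hN.ne (x0, 0) ⟨hx0, h00⟩ with h | h
    · have : 0 < Complex.normSq (sl P 0 x0) := Complex.normSq_pos.2 h
      positivity
    · have : 0 < Complex.normSq (sl Q 0 x0) := Complex.normSq_pos.2 h
      positivity
  unfold sph
  rw [m1', m2', Complex.normSq_mul, Complex.normSq_mul, ← mul_add, ← mul_div_assoc,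
    ← Complex.normSq_mul, h5, Complex.normSq_mul, map_pow, mul_pow,
    mul_div_mul_left _ _ (pow_ne_zero 2 hμ')]

theorem BSM (hBSL : BSL_stmt) (hBPI : BPI_stmt) (hBRA : BRA_stmt) : BSM_stmt := by
  intro P Q E hN
  classical
  have h00 : (0 : ℂ) ∈ ball (0 : ℂ) 1 := mem_ball_self one_pos
  have hSS : ∀ (x0 : ℂ) (X : ℂ → ℂ), Sht P Q x0 X ↔ BSM_S P Q 1 x0 X := fun x0 X => Iff.rfl
  set A : Set ℂ := {x0 : ℂ | x0 ∈ ball (0 : ℂ) (1 / 2) ∧ ∃ X : ℂ → ℂ, Sht P Q x0 X} with hA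
  set Ξ : ℂ × ℂ → ℂ := fun p => if h : ∃ X : ℂ → ℂ, Sht P Q p.1 X then h.choose p.2 else 0 with hΞ
  have hΞs : ∀ x0 ∈ A, Sht P Q x0 (fun v => Ξ (x0, v)) := by
    rintro x0 ⟨-, hx⟩
    have h1 := hx.choose_spec
    have h2 : (fun v => Ξ (x0, v)) = hx.choose := by
      funext v
      simp only [hΞ]
      rw [dif_pos hx]
    rw [h2]
    exact h1
  have hΞu : ∀ x0 ∈ A, ∀ X : ℂ → ℂ, Sht P Q x0 X → ∀ v ∈ ball (0 : ℂ) 1, Ξ (x0, v) = X v := by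
    intro x0 hx0 X hX v hv
    have h1 := hΞs x0 hx0
    exact BSM_uniq hN le_rfl ((hSS _ _).1 h1) ((hSS _ _).1 hX) h00 (h1.2.1.trans hX.2.1.symm) v hv
  -- local families
  have hfam : ∀ x0 ∈ A, ∀ v ∈ ball (0 : ℂ) 1, ∃ (R' δ : ℝ) (Y : ℂ × ℂ → ℂ), 0 < δ ∧ 0 < R' ∧ R' < 1 ∧
      v ∈ ball (0 : ℂ) R' ∧ DifferentiableOn ℂ Y (ball (0 : ℂ) R' ×ˢ ball x0 δ) ∧
      (∀ y ∈ ball x0 δ, BSM_S P Q R' y (fun v => Y (v, y))) ∧
      ∀ y ∈ A, y ∈ ball x0 δ → ∀ w ∈ ball (0 : ℂ) R', Ξ (y, w) = Y (w, y) := by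
    intro x0 hx0 v hv
    have hvn : ‖v‖ < 1 := by rwa [mem_ball_zero_iff] at hv
    have hv0 := norm_nonneg v
    have hR'0 : 0 < (‖v‖ + 1) / 2 := by positivity
    have hR'1 : (‖v‖ + 1) / 2 < 1 := by linarith
    obtain ⟨δ, Y, hδ, hYd, hY⟩ := BSM_ext hBPI hN le_rfl hR'0 hR'1 ((hSS _ _).1 (hΞs x0 hx0))
    refine ⟨(‖v‖ + 1) / 2, δ, Y, hδ, hR'0, hR'1, ?_, hYd, fun y hy => (hY y hy).2, ?_⟩
    · rw [mem_ball_zero_iff]
      linarith
    · intro y hyA hy w hw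
      have h1 := BSM_mono ((hSS _ _).1 (hΞs y hyA)) hR'1.le
      exact BSM_uniq hN hR'1.le h1 (hY y hy).2 (mem_ball_self hR'0)
        (h1.2.1.trans (hY y hy).2.2.1.symm) w hw
  -- measurability
  have hAm : MeasurableSet A := by
    set ρ : ℕ → ℝ := fun n => 1 - 1 / ((n : ℝ) + 2) with hρ
    have hρ0 : ∀ n, 0 < ρ n := by
      intro n
      have h1 : (1 : ℝ) / ((n : ℝ) + 2) < 1 := by
        rw [div_lt_one (by positivity)]
        have : (0 : ℝ) ≤ n := Nat.cast_nonneg n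
        linarith
      simp only [hρ]
      linarith
    have hρ1 : ∀ n, ρ n < 1 := by
      intro n
      have h1 : (0 : ℝ) < 1 / ((n : ℝ) + 2) := by positivity
      simp only [hρ]
      linarith
    have hρex : ∀ v ∈ ball (0 : ℂ) 1, ∃ n, v ∈ ball (0 : ℂ) (ρ n) := by
      intro v hv
      rw [mem_ball_zero_iff] at hv
      obtain ⟨n, hn⟩ := exists_nat_gt (1 / (1 - ‖v‖))
      refine ⟨n, ?_⟩
      rw [mem_ball_zero_iff]
      have h1 : 0 < 1 - ‖v‖ := by linarith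
      have hn0 : (0 : ℝ) < (n : ℝ) + 2 := by positivity
      rw [div_lt_iff₀ h1] at hn
      have h2 : 1 / ((n : ℝ) + 2) < 1 - ‖v‖ := by
        rw [div_lt_iff₀ hn0]
        nlinarith
      simp only [hρ]
      linarith
    set On : ℕ → Set ℂ := fun n => {x0 : ℂ | x0 ∈ ball (0 : ℂ) (1 / 2) ∧ ∃ X : ℂ → ℂ, BSM_S P Q (ρ n) x0 X} with hOn
    have hAeq : A = ⋂ n, interior (On n) := by
      apply Subset.antisymm
      · intro x0 hx0
        rw [mem_iInter]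
        intro n
        obtain ⟨δ, Y, hδ, -, hY⟩ := BSM_ext hBPI hN le_rfl (hρ0 n) (hρ1 n) ((hSS _ _).1 (hΞs x0 hx0))
        rw [mem_interior]
        exact ⟨ball x0 δ, fun y hy => ⟨(hY y hy).1, _, (hY y hy).2⟩, isOpen_ball, mem_ball_self hδ⟩
      · intro x0 hx0
        rw [mem_iInter] at hx0
        have hx : ∀ n, x0 ∈ On n := fun n => interior_subset (hx0 n)
        choose hxb X hX using hx
        have huu : ∀ n m, ∀ v ∈ ball (0 : ℂ) (ρ n), v ∈ ball (0 : ℂ) (ρ m) → X n v = X m v := by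
          intro n m v hv hv'
          have h1 : v ∈ ball (0 : ℂ) (min (ρ n) (ρ m)) := by
            rw [mem_ball_zero_iff] at hv hv' ⊢
            exact lt_min hv hv'
          exact BSM_uniq hN ((min_le_left _ _).trans (hρ1 n).le) (BSM_mono (hX n) (min_le_left _ _))
            (BSM_mono (hX m) (min_le_right _ _)) (mem_ball_self (lt_min (hρ0 n) (hρ0 m)))
            (by rw [(hX n).2.1, (hX m).2.1]) v h1
        set Z : ℂ → ℂ := fun v => if h : ∃ n, v ∈ ball (0 : ℂ) (ρ n) then X h.choose v else 0 with hZ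
        have hZn : ∀ n, ∀ v ∈ ball (0 : ℂ) (ρ n), Z v = X n v := by
          intro n v hv
          have h1 : ∃ n, v ∈ ball (0 : ℂ) (ρ n) := ⟨n, hv⟩
          simp only [hZ]
          rw [dif_pos h1]
          exact huu _ _ v h1.choose_spec hv
        refine ⟨hxb 0, Z, ?_, ?_, ?_⟩
        · intro v hv
          obtain ⟨n, hn⟩ := hρex v hv
          have h1 : Z =ᶠ[𝓝 v] X n := by
            filter_upwards [isOpen_ball.mem_nhds hn] with w hw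
            exact hZn n w hw
          exact (((hX n).1.differentiableAt (isOpen_ball.mem_nhds hn)).congr_of_eventuallyEq
            h1).differentiableWithinAt
        · rw [hZn 0 0 (mem_ball_self (hρ0 0)), (hX 0).2.1]
        · intro v hv
          obtain ⟨n, hn⟩ := hρex v hv
          rw [hZn n v hn]
          exact (hX n).2.2 v hn
    rw [hAeq]
    exact MeasurableSet.iInter fun n => isOpen_interior.measurableSet
  refine ⟨A, Ξ, hAm, fun x0 => Iff.rfl, hΞu, ?_, ?_⟩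
  · -- continuity
    rintro ⟨x0, v⟩ ⟨hx0, hv⟩
    obtain ⟨R', δ, Y, hδ, hR'0, hR'1, hvR', hYd, hYs, hYΞ⟩ := hfam x0 hx0 v hv
    have h1 : ContinuousAt (fun p : ℂ × ℂ => Y (p.2, p.1)) (x0, v) := by
      have h2 : ContinuousAt Y (v, x0) :=
        hYd.continuousOn.continuousAt ((isOpen_ball.prod isOpen_ball).mem_nhds
          ⟨hvR', mem_ball_self hδ⟩)
      exact ContinuousAt.comp (f := fun p : ℂ × ℂ => (p.2, p.1)) (g := Y) h2
        (continuousAt_snd.prodMk continuousAt_fst)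
    refine h1.continuousWithinAt.congr_of_eventuallyEq ?_ ?_
    · have h3 : ball x0 δ ×ˢ ball (0 : ℂ) R' ∈ 𝓝[A ×ˢ ball (0 : ℂ) 1] (x0, v) :=
        mem_nhdsWithin_of_mem_nhds ((isOpen_ball.prod isOpen_ball).mem_nhds
          ⟨mem_ball_self hδ, hvR'⟩)
      filter_upwards [h3, self_mem_nhdsWithin] with p hp1 hp2
      exact hYΞ p.1 hp2.1 hp1.1 p.2 hp1.2
    · exact hYΞ x0 hx0 (mem_ball_self hδ) v hvR'
  · -- the change of variables
    intro v hv g hg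
    set φ : ℂ → ℂ := fun x0 => Ξ (x0, v) with hφ
    have hφm : ∀ x0 ∈ A, φ x0 ∈ ball (0 : ℂ) (1 / 2) := fun x0 hx0 => ((hΞs x0 hx0).2.2 v hv).1
    have hinj : InjOn φ A := by
      intro x0 hx0 y0 hy0 h
      have h1 := hΞs x0 hx0
      have h2 := hΞs y0 hy0
      have h3 := BSM_uniq hN le_rfl ((hSS _ _).1 h1) ((hSS _ _).1 h2) hv h 0 h00
      exact h1.2.1.symm.trans (h3.trans h2.2.1)
    have hd : ∀ x0 : ℂ, ∃ d : ℂ, x0 ∈ A → HasDerivWithinAt φ d A x0 ∧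
        Complex.normSq d * sph (sl P v) (sl Q v) (φ x0) = sph (sl P 0) (sl Q 0) x0 := by
      intro x0
      by_cases hx0 : x0 ∈ A
      swap
      · exact ⟨0, fun h => absurd h hx0⟩
      obtain ⟨R', δ, Y, hδ, hR'0, hR'1, hvR', hYd, hYs, hYΞ⟩ := hfam x0 hx0 v hv
      have hYx : DifferentiableAt ℂ (fun x => Y (v, x)) x0 := by
        have h2 : DifferentiableAt ℂ Y (v, x0) :=
          hYd.differentiableAt ((isOpen_ball.prod isOpen_ball).mem_nhds ⟨hvR', mem_ball_self hδ⟩)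
        exact DifferentiableAt.comp x0 (f := fun x : ℂ => (v, x)) h2 (by fun_prop)
      have hx00 : φ x0 = Y (v, x0) := hYΞ x0 hx0 (mem_ball_self hδ) v hvR'
      refine ⟨deriv (fun x => Y (v, x)) x0, fun _ => ⟨?_, ?_⟩⟩
      · refine hYx.hasDerivAt.hasDerivWithinAt.congr_of_eventuallyEq ?_ hx00
        have h3 : ball x0 δ ∈ 𝓝[A] x0 := mem_nhdsWithin_of_mem_nhds (ball_mem_nhds x0 hδ)
        filter_upwards [h3, self_mem_nhdsWithin] with y hy1 hy2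
        exact hYΞ y hy2 hy1 v hvR'
      · rw [hx00]
        refine BSM_der hN (fun x => Y (v, x)) x0 v _ (BSM_half hx0.1) hv ?_ hYx.hasDerivAt ?_
        · exact BSM_half ((hYs x0 (mem_ball_self hδ)).2.2 v hvR').1
        · filter_upwards [ball_mem_nhds x0 hδ] with y hy
          exact ((hYs y hy).2.2 v hvR').2.1
    choose d hd using hd
    have hcv := lintegral_image_eq_lintegral_abs_det_fderiv_mul volume hAm (f := φ)
      (f' := fun y => (ContinuousLinearMap.toSpanSingleton ℂ (d y) : ℂ →L[ℂ] ℂ).restrictScalars ℝ)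
      (fun x hx => ((hd x hx).1.hasFDerivWithinAt.restrictScalars ℝ)) hinj
      (fun x => ENNReal.ofReal (sph (sl P v) (sl Q v) x) * g x)
    have h1 : ∫⁻ x0 in A, ENNReal.ofReal (sph (sl P 0) (sl Q 0) x0) * g (Ξ (x0, v)) =
        ∫⁻ x in φ '' A, ENNReal.ofReal (sph (sl P v) (sl Q v) x) * g x := by
      rw [hcv]
      refine setLIntegral_congr_fun hAm fun x hx => ?_
      show ENNReal.ofReal (sph (sl P 0) (sl Q 0) x) * g (φ x) =
        ENNReal.ofReal |((ContinuousLinearMap.toSpanSingleton ℂ (d x) : ℂ →L[ℂ] ℂ).restrictScalars ℝ).det| *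
          (ENNReal.ofReal (sph (sl P v) (sl Q v) (φ x)) * g (φ x))
      rw [BSM_det, abs_of_nonneg (by positivity), ← mul_assoc, ← ENNReal.ofReal_mul (by positivity)]
      have h2 : ‖(ContinuousLinearMap.toSpanSingleton ℂ (d x) : ℂ →L[ℂ] ℂ) 1‖ ^ 2 =
          Complex.normSq (d x) := by
        rw [Complex.normSq_eq_norm_sq]
        simp
      rw [h2, (hd x hx).2]
    rw [h1]
    refine lintegral_mono_set ?_
    rintro y ⟨x, hx, rfl⟩
    exact hφm x hx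

end Pool.Agent.P2B
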