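import Pool.Agent.helper56.P2.SpecU

/-! # Row p2:UEXI. Exits need `L^p` energy -/

set_option autoImplicit false

namespace Pool.Agent.P2U

open MeasureTheory Set Filter Topology Metric Complex
open scoped ENNReal ContDiff

theorem UEXI_per (F : ℝ → ENNReal) (hF : ∀ θ, F (θ + 2 * Real.pi) = F θ) :
    ∫⁻ θ in Ioo (-Real.pi) Real.pi, F θ = ∫⁻ θ in Ioc 0 (2 * Real.pi), F θ := by
  have hpi : 0 < 2 * Real.pi := by positivity
  have h1 := isAddFundamentalDomain_Ioc hpi (-Real.pi) volume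
  have h2 := isAddFundamentalDomain_Ioc hpi 0 volume
  have hper : Function.Periodic F (2 * Real.pi) := hF
  have h3 := h1.setLIntegral_eq h2 F (by
    intro g x
    obtain ⟨n, hn⟩ := AddSubgroup.mem_zmultiples_iff.1 g.2
    show F ((g : ℝ) + x) = F x
    rw [← hn, add_comm]
    exact hper.zsmul n x)
  rw [zero_add, show -Real.pi + 2 * Real.pi = Real.pi by ring] at h3
  rw [← h3]
  exact setLIntegral_congr Ioo_ae_eq_Ioc

/-- polar coordinates on a punctured disc -/
theorem UEXI_pol (g : ℂ → ENNReal) (hg : Measurable g) (c : ℂ) (r2 : ℝ) :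
    ∫⁻ z in {z : ℂ | 0 < ‖z - c‖ ∧ ‖z - c‖ ≤ r2}, g z =
      ∫⁻ ρ in Ioc 0 r2, ENNReal.ofReal ρ * ∫⁻ θ in Ioc 0 (2 * Real.pi), g (circleMap c ρ θ) := by
  set S : Set ℂ := {z : ℂ | 0 < ‖z - c‖ ∧ ‖z - c‖ ≤ r2} with hS
  have hSm : MeasurableSet S := by
    have e : S = {z : ℂ | 0 < ‖z - c‖} ∩ {z : ℂ | ‖z - c‖ ≤ r2} := rfl
    rw [e]
    exact (measurableSet_lt measurable_const (by fun_prop)).inter
      (measurableSet_le (by fun_prop) measurable_const)
  set F : ℂ → ENNReal := S.indicator g with hF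
  have hFm : Measurable F := hg.indicator hSm
  have e1 : ∫⁻ z in S, g z = ∫⁻ z, F (z + c) := by
    rw [lintegral_add_right_eq_self F c, hF, lintegral_indicator hSm]
  rw [e1, ← Complex.lintegral_comp_polarCoord_symm (fun z => F (z + c)), polarCoord_target]
  have hcm : ∀ p : ℝ × ℝ, Complex.polarCoord.symm p + c = circleMap c p.1 p.2 := by
    intro p
    rw [Complex.polarCoord_symm_apply, circleMap, Complex.exp_mul_I, add_comm]
    push_cast
    rfl
  have hFc : ∀ ρ θ : ℝ, 0 < ρ → F (circleMap c ρ θ) =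
      (Ioc 0 r2).indicator (fun _ => g (circleMap c ρ θ)) ρ := by
    intro ρ θ hρ
    have hn : ‖circleMap c ρ θ - c‖ = ρ := by
      rw [circleMap_sub_center, norm_circleMap_zero, abs_of_pos hρ]
    by_cases h : ρ ∈ Ioc 0 r2
    · rw [indicator_of_mem h, hF, indicator_of_mem]
      show 0 < ‖circleMap c ρ θ - c‖ ∧ ‖circleMap c ρ θ - c‖ ≤ r2
      rw [hn]
      exact h
    · rw [indicator_of_notMem h, hF, indicator_of_notMem]
      intro h'
      have h'' : 0 < ‖circleMap c ρ θ - c‖ ∧ ‖circleMap c ρ θ - c‖ ≤ r2 := h'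
      rw [hn] at h''
      exact h h''
  have hmeas : Measurable fun p : ℝ × ℝ => ENNReal.ofReal p.1 * F (circleMap c p.1 p.2) := by
    refine (ENNReal.measurable_ofReal.comp measurable_fst).mul (hFm.comp ?_)
    have : Continuous fun p : ℝ × ℝ => circleMap c p.1 p.2 := by
      unfold circleMap
      fun_prop
    exact this.measurable
  have e2 : ∫⁻ p in Ioi (0 : ℝ) ×ˢ Ioo (-Real.pi) Real.pi,
      ENNReal.ofReal p.1 • F (Complex.polarCoord.symm p + c) =
      ∫⁻ ρ in Ioi (0 : ℝ), ENNReal.ofReal ρ * ∫⁻ θ in Ioc 0 (2 * Real.pi),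
        F (circleMap c ρ θ) := by
    have e3 : (volume : Measure (ℝ × ℝ)).restrict (Ioi (0 : ℝ) ×ˢ Ioo (-Real.pi) Real.pi) =
        ((volume : Measure ℝ).restrict (Ioi 0)).prod
          ((volume : Measure ℝ).restrict (Ioo (-Real.pi) Real.pi)) := by
      rw [Measure.prod_restrict]
      rfl
    simp only [smul_eq_mul, hcm]
    rw [e3, lintegral_prod _ hmeas.aemeasurable]
    refine lintegral_congr fun ρ => ?_
    dsimp only
    have hm : Measurable fun θ : ℝ => F (circleMap c ρ θ) :=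
      hFm.comp (continuous_circleMap c ρ).measurable
    rw [lintegral_const_mul _ hm]
    congr 1
    exact UEXI_per _ fun θ => by rw [periodic_circleMap c ρ θ]
  rw [e2]
  have e4 : ∀ ρ ∈ Ioi (0 : ℝ), (ENNReal.ofReal ρ * ∫⁻ θ in Ioc 0 (2 * Real.pi),
      F (circleMap c ρ θ)) = (Ioc 0 r2).indicator (fun ρ => ENNReal.ofReal ρ *
        ∫⁻ θ in Ioc 0 (2 * Real.pi), g (circleMap c ρ θ)) ρ := by
    intro ρ hρ
    by_cases h : ρ ∈ Ioc 0 r2
    · rw [indicator_of_mem h]
      congr 1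
      refine lintegral_congr fun θ => ?_
      rw [hFc ρ θ hρ, indicator_of_mem h]
    · rw [indicator_of_notMem h]
      have : ∫⁻ θ in Ioc 0 (2 * Real.pi), F (circleMap c ρ θ) = 0 := by
        rw [← lintegral_zero (μ := volume.restrict (Ioc 0 (2 * Real.pi)))]
        refine lintegral_congr fun θ => ?_
        rw [hFc ρ θ hρ, indicator_of_notMem h]
      rw [this, mul_zero]
  rw [setLIntegral_congr_fun measurableSet_Ioi e4, setLIntegral_indicator measurableSet_Ioc]
  congr 2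
  ext ρ
  simp only [mem_inter_iff, mem_Ioc, mem_Ioi]
  constructor
  · rintro ⟨h2, -⟩
    exact h2
  · intro h2
    exact ⟨h2, h2.1⟩

/-- the tangent line inequality of `t ^ p` -/
theorem UEXI_tan (p b t : ℝ) (hp : 1 ≤ p) (hb : 0 ≤ b) (ht : 0 ≤ t) :
    b ^ p + p * b ^ (p - 1) * (t - b) ≤ t ^ p := by
  rcases hb.eq_or_lt with h | h
  · rcases eq_or_lt_of_le hp with h1 | h1
    · rw [← h, ← h1]; simp
    · rw [← h, Real.zero_rpow (by linarith), Real.zero_rpow (by linarith)]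
      have := Real.rpow_nonneg ht p
      linarith
  · have h1 := one_add_mul_self_le_rpow_one_add (s := t / b - 1)
      (by have := div_nonneg ht h.le; linarith) hp
    have h2 : 1 + (t / b - 1) = t / b := by ring
    rw [h2, Real.div_rpow ht h.le] at h1
    have h3 : 0 < b ^ p := Real.rpow_pos_of_pos h p
    have h4 : b ^ (p - 1) = b ^ p / b := by rw [Real.rpow_sub_one h.ne']
    rw [le_div_iff₀ h3] at h1
    rw [h4]
    have h5 : (1 + p * (t / b - 1)) * b ^ p = b ^ p + p * (b ^ p / b) * (t - b) := by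
      field_simp
    linarith

/-- the circle mean of `|f| ^ p` -/
theorem UEXI_circ (p : ℝ) (hp : 1 ≤ p) (f : ℂ → ℂ) (w : ℂ) (ρ r : ℝ) (hr : 0 < r) (hρ : r < ρ)
    (hf : DifferentiableOn ℂ f (ball w ρ)) :
    ENNReal.ofReal (2 * Real.pi * ‖f w‖ ^ p) ≤
      ∫⁻ θ in Ioc 0 (2 * Real.pi), ENNReal.ofReal (‖f (circleMap w r θ)‖ ^ p) := by
  have hsub : closedBall w r ⊆ ball w ρ := closedBall_subset_ball hρ
  have hd : DiffContOnCl ℂ f (ball w |r|) := by
    rw [abs_of_pos hr]
    exact (hf.mono hsub).diffContOnCl_ball (subset_refl _)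
  have hmv := hd.circleAverage
  have hcont : Continuous fun θ : ℝ => f (circleMap w r θ) := by
    rw [← continuousOn_univ]
    exact (hf.continuousOn.mono hsub).comp (continuous_circleMap w r).continuousOn
      (fun θ _ => circleMap_mem_closedBall w hr.le θ)
  have hn : Continuous fun θ : ℝ => ‖f (circleMap w r θ)‖ := hcont.norm
  have hnp : Continuous fun θ : ℝ => ‖f (circleMap w r θ)‖ ^ p :=
    hn.rpow_const fun θ => Or.inr (by linarith)
  have hpi : 0 < 2 * Real.pi := by positivity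
  -- the mean of the norm
  have h1 : 2 * Real.pi * ‖f w‖ ≤ ∫ θ in (0 : ℝ)..(2 * Real.pi), ‖f (circleMap w r θ)‖ := by
    have h2 : f w = (2 * Real.pi)⁻¹ • ∫ θ in (0 : ℝ)..(2 * Real.pi), f (circleMap w r θ) := by
      rw [← hmv]
      rfl
    have h3 : ‖f w‖ = (2 * Real.pi)⁻¹ * ‖∫ θ in (0 : ℝ)..(2 * Real.pi), f (circleMap w r θ)‖ := by
      rw [h2, norm_smul, Real.norm_of_nonneg (by positivity)]
    rw [h3, ← mul_assoc, mul_inv_cancel₀ hpi.ne', one_mul]
    exact intervalIntegral.norm_integral_le_integral_norm hpi.le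
  have h2 : 2 * Real.pi * ‖f w‖ ^ p ≤ ∫ θ in (0 : ℝ)..(2 * Real.pi), ‖f (circleMap w r θ)‖ ^ p := by
    have h3 : ∫ θ in (0 : ℝ)..(2 * Real.pi), (‖f w‖ ^ p + p * ‖f w‖ ^ (p - 1) *
        (‖f (circleMap w r θ)‖ - ‖f w‖)) ≤
        ∫ θ in (0 : ℝ)..(2 * Real.pi), ‖f (circleMap w r θ)‖ ^ p := by
      refine intervalIntegral.integral_mono_on hpi.le ?_ (hnp.intervalIntegrable _ _) ?_
      · exact (continuous_const.add (continuous_const.mul
          (hn.sub continuous_const))).intervalIntegrable _ _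
      · intro θ _
        exact UEXI_tan p _ _ hp (norm_nonneg _) (norm_nonneg _)
    have h6 : ∫ θ in (0 : ℝ)..(2 * Real.pi), (‖f w‖ ^ p + p * ‖f w‖ ^ (p - 1) *
        (‖f (circleMap w r θ)‖ - ‖f w‖)) = 2 * Real.pi * ‖f w‖ ^ p + p * ‖f w‖ ^ (p - 1) *
        ((∫ θ in (0 : ℝ)..(2 * Real.pi), ‖f (circleMap w r θ)‖) - 2 * Real.pi * ‖f w‖) := by
      have i1 : IntervalIntegrable (fun _ : ℝ => ‖f w‖ ^ p) volume 0 (2 * Real.pi) :=
        continuous_const.intervalIntegrable _ _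
      have i2 : IntervalIntegrable (fun θ : ℝ => p * ‖f w‖ ^ (p - 1) *
          (‖f (circleMap w r θ)‖ - ‖f w‖)) volume 0 (2 * Real.pi) :=
        (continuous_const.mul (hn.sub continuous_const)).intervalIntegrable _ _
      have i3 : IntervalIntegrable (fun _ : ℝ => ‖f w‖) volume 0 (2 * Real.pi) :=
        continuous_const.intervalIntegrable _ _
      rw [intervalIntegral.integral_add i1 i2, intervalIntegral.integral_const_mul,
        intervalIntegral.integral_sub (hn.intervalIntegrable _ _) i3,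
        intervalIntegral.integral_const, intervalIntegral.integral_const, sub_zero, smul_eq_mul,
        smul_eq_mul]
    rw [h6] at h3
    have h4 : 0 ≤ p * ‖f w‖ ^ (p - 1) :=
      mul_nonneg (by linarith) (Real.rpow_nonneg (norm_nonneg _) _)
    have h5 : 0 ≤ p * ‖f w‖ ^ (p - 1) * ((∫ θ in (0 : ℝ)..(2 * Real.pi), ‖f (circleMap w r θ)‖) -
        2 * Real.pi * ‖f w‖) := mul_nonneg h4 (by linarith)
    linarith
  calc ENNReal.ofReal (2 * Real.pi * ‖f w‖ ^ p)
      ≤ ENNReal.ofReal (∫ θ in (0 : ℝ)..(2 * Real.pi), ‖f (circleMap w r θ)‖ ^ p) :=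
        ENNReal.ofReal_le_ofReal h2
    _ = _ := by
        rw [intervalIntegral.integral_of_le hpi.le]
        exact ofReal_integral_eq_lintegral_ofReal
          ((hnp.integrableOn_Icc (a := 0) (b := 2 * Real.pi)).mono_set Ioc_subset_Icc_self)
          (Eventually.of_forall fun θ => Real.rpow_nonneg (norm_nonneg _) p)

/-- sub mean value property of `|f| ^ p` on a disc -/
theorem UEXI_disc (p : ℝ) (hp : 1 ≤ p) (f : ℂ → ℂ) (w : ℂ) (ρ r : ℝ) (hr : 0 < r) (hρ : r < ρ)
    (hf : DifferentiableOn ℂ f (ball w ρ)) (U : Set ℂ) (hU : ball w ρ ⊆ U) :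
    ENNReal.ofReal (Real.pi * r ^ 2 * ‖f w‖ ^ p) ≤
      ∫⁻ z in U, ENNReal.ofReal (‖f z‖ ^ p) := by
  classical
  set g : ℂ → ENNReal := (ball w ρ).indicator fun z => ENNReal.ofReal (‖f z‖ ^ p) with hg
  have hgm : Measurable g := by
    have h0 : ContinuousOn (fun z => ENNReal.ofReal (‖f z‖ ^ p)) (ball w ρ) := by
      refine ENNReal.continuous_ofReal.comp_continuousOn ?_
      exact hf.continuousOn.norm.rpow_const fun z _ => Or.inr (by linarith)
    have h1 : Measurable ((ball w ρ).piecewise (fun z => ENNReal.ofReal (‖f z‖ ^ p)) fun _ => 0) :=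
      h0.measurable_piecewise continuousOn_const measurableSet_ball
    exact h1
  have hpol := UEXI_pol g hgm w r
  have hsub : {z : ℂ | 0 < ‖z - w‖ ∧ ‖z - w‖ ≤ r} ⊆ ball w ρ := by
    intro z hz
    rw [mem_ball, dist_eq_norm]
    exact lt_of_le_of_lt hz.2 hρ
  have h1 : ∫⁻ z in {z : ℂ | 0 < ‖z - w‖ ∧ ‖z - w‖ ≤ r}, g z ≤
      ∫⁻ z in U, ENNReal.ofReal (‖f z‖ ^ p) := by
    calc ∫⁻ z in {z : ℂ | 0 < ‖z - w‖ ∧ ‖z - w‖ ≤ r}, g z
        ≤ ∫⁻ z in ball w ρ, g z := lintegral_mono_set hsub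
      _ = ∫⁻ z in ball w ρ, ENNReal.ofReal (‖f z‖ ^ p) :=
          setLIntegral_congr_fun measurableSet_ball fun z hz => by rw [hg, indicator_of_mem hz]
      _ ≤ _ := lintegral_mono_set hU
  refine le_trans ?_ h1
  rw [hpol]
  have h2 : ∫⁻ s in Ioc 0 r, ENNReal.ofReal s * ENNReal.ofReal (2 * Real.pi * ‖f w‖ ^ p) ≤
      ∫⁻ s in Ioc 0 r, ENNReal.ofReal s * ∫⁻ θ in Ioc 0 (2 * Real.pi), g (circleMap w s θ) := by
    refine setLIntegral_mono' measurableSet_Ioc fun s hs => ?_
    refine mul_le_mul_right ?_ _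
    refine (UEXI_circ p hp f w ρ s hs.1 (lt_of_le_of_lt hs.2 hρ) hf).trans (le_of_eq ?_)
    refine lintegral_congr fun θ => ?_
    rw [hg, indicator_of_mem]
    rw [mem_ball, dist_eq_norm, circleMap_sub_center, norm_circleMap_zero, abs_of_pos hs.1]
    exact lt_of_le_of_lt hs.2 hρ
  refine le_trans (le_of_eq ?_) h2
  rw [lintegral_mul_const _ ENNReal.measurable_ofReal]
  have h3 : ∫⁻ s in Ioc 0 r, ENNReal.ofReal s = ENNReal.ofReal (r ^ 2 / 2) := by
    rw [← ofReal_integral_eq_lintegral_ofReal, ← intervalIntegral.integral_of_le hr.le,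
      integral_id]
    · ring_nf
    · exact ((continuous_id.integrableOn_Icc (a := 0) (b := r)).mono_set Ioc_subset_Icc_self)
    · rw [Filter.EventuallyLE, ae_restrict_iff' measurableSet_Ioc]
      exact Eventually.of_forall fun s hs => hs.1.le
  rw [h3, ← ENNReal.ofReal_mul (by positivity)]
  congr 1
  ring

theorem UEXI : UEXI_stmt := by
  intro p hp
  set s : ℝ := 1 - 2 / p with hs
  have hp0 : 0 < p := by linarith
  have hs0 : 0 < s := by
    have : 2 / p < 1 := by rw [div_lt_one hp0]; exact hp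
    rw [hs]; linarith
  have hs1 : s ≤ 1 := by
    have : 0 ≤ 2 / p := by positivity
    rw [hs]; linarith
  have hC0 : 0 < 4 / Real.pi * (4 / s) ^ p :=
    mul_pos (div_pos (by norm_num) Real.pi_pos) (Real.rpow_pos_of_pos (by positivity) _)
  refine ⟨4 / Real.pi * (4 / s) ^ p, hC0, ?_⟩
  rintro R X hR hR1 hX ⟨w, hw, hwX⟩
  set I : ℝ≥0∞ := ∫⁻ w in ball (0 : ℂ) R, ENNReal.ofReal (‖deriv X w‖ ^ p) with hI
  by_contra hcon
  rw [not_le] at hcon
  have hIf : I ≠ ⊤ := by
    intro h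
    rw [h, ENNReal.mul_top (by simpa using hC0)] at hcon
    exact absurd hcon (by simp)
  set δ : ℝ := I.toReal with hδ
  have hId : I = ENNReal.ofReal δ := (ENNReal.ofReal_toReal hIf).symm
  have hδ0 : 0 ≤ δ := ENNReal.toReal_nonneg
  have hCδ : 4 / Real.pi * (4 / s) ^ p * δ < 1 := by
    rw [hId, ← ENNReal.ofReal_mul hC0.le, ← ENNReal.ofReal_one,
      ENNReal.ofReal_lt_ofReal_iff one_pos] at hcon
    exact hcon
  -- pointwise bound
  have hdX : DifferentiableOn ℂ (deriv X) (ball 0 R) := hX.deriv isOpen_ball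
  set K : ℝ := (4 * δ / Real.pi) ^ (1 / p) with hK
  have hK0 : 0 ≤ K := Real.rpow_nonneg (by positivity) _
  have hpt : ∀ z ∈ ball (0 : ℂ) R, ‖deriv X z‖ ≤ K * (R - ‖z‖) ^ (-(2 / p)) := by
    intro z hz
    rw [mem_ball_zero_iff] at hz
    have hd : 0 < R - ‖z‖ := by linarith
    have hsub : ball z (R - ‖z‖) ⊆ ball (0 : ℂ) R := by
      intro y hy
      rw [mem_ball, dist_eq_norm] at hy
      rw [mem_ball_zero_iff]
      calc ‖y‖ = ‖(y - z) + z‖ := by rw [sub_add_cancel]
        _ ≤ ‖y - z‖ + ‖z‖ := norm_add_le _ _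
        _ < R := by linarith
    have h1 := UEXI_disc p (by linarith) (deriv X) z (R - ‖z‖) ((R - ‖z‖) / 2) (by linarith)
      (by linarith) (hdX.mono hsub) (ball 0 R) hsub
    rw [← hI, hId, ENNReal.ofReal_le_ofReal_iff hδ0] at h1
    have h2 : ‖deriv X z‖ ^ p ≤ 4 * δ / Real.pi * (R - ‖z‖) ^ (-2 : ℝ) := by
      rw [Real.rpow_neg hd.le, Real.rpow_two, ← div_eq_mul_inv, le_div_iff₀ (by positivity),
        le_div_iff₀ Real.pi_pos]
      nlinarith [h1]
    calc ‖deriv X z‖ = (‖deriv X z‖ ^ p) ^ (1 / p) := by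
          rw [← Real.rpow_mul (norm_nonneg _), mul_one_div_cancel hp0.ne', Real.rpow_one]
      _ ≤ (4 * δ / Real.pi * (R - ‖z‖) ^ (-2 : ℝ)) ^ (1 / p) :=
          Real.rpow_le_rpow (Real.rpow_nonneg (norm_nonneg _) _) h2 (by positivity)
      _ = K * (R - ‖z‖) ^ (-(2 / p)) := by
          rw [Real.mul_rpow (by positivity) (Real.rpow_nonneg hd.le _), ← Real.rpow_mul hd.le, hK]
          congr 2
          ring
  -- integrate on the radius
  have hwn : ‖w‖ < R := by rwa [mem_ball_zero_iff] at hw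
  have hin : ∀ t ∈ Icc (0 : ℝ) 1, ((t : ℝ) : ℂ) * w ∈ ball (0 : ℂ) R := by
    intro t ht
    rw [mem_ball_zero_iff, norm_mul, Complex.norm_real, Real.norm_of_nonneg ht.1]
    calc t * ‖w‖ ≤ 1 * ‖w‖ := mul_le_mul_of_nonneg_right ht.2 (norm_nonneg _)
      _ < R := by linarith
  have hpos : ∀ t ∈ Icc (0 : ℝ) 1, 0 < R - t * ‖w‖ := by
    intro t ht
    have := mul_le_mul_of_nonneg_right ht.2 (norm_nonneg w)
    linarith
  have hder : ∀ t ∈ Icc (0 : ℝ) 1, HasDerivAt (fun t : ℝ => X ((t : ℂ) * w) - X 0)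
      (deriv X ((t : ℂ) * w) * w) t := by
    intro t ht
    have h1 : HasDerivAt X (deriv X ((t : ℂ) * w)) ((t : ℂ) * w) :=
      ((hX _ (hin t ht)).differentiableAt (isOpen_ball.mem_nhds (hin t ht))).hasDerivAt
    have h2 : HasDerivAt (fun t : ℝ => (t : ℂ) * w) w t := by
      have := (Complex.ofRealCLM.hasDerivAt (x := t)).mul_const w
      simpa using this
    have h3 := HasDerivAt.comp_of_eq t h1 h2 rfl
    exact h3.sub_const _
  have hderB : ∀ t ∈ Icc (0 : ℝ) 1, HasDerivAt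
      (fun t : ℝ => K / s * (R ^ s - (R - t * ‖w‖) ^ s))
      (K * (R - t * ‖w‖) ^ (-(2 / p)) * ‖w‖) t := by
    intro t ht
    have h1 : HasDerivAt (fun t : ℝ => R - t * ‖w‖) (-‖w‖) t := by
      have := ((hasDerivAt_id t).mul_const ‖w‖).const_sub R
      simpa using this
    have h2 := h1.rpow_const (p := s) (Or.inl (hpos t ht).ne')
    have h3 := (h2.const_sub (R ^ s)).const_mul (K / s)
    have e : K / s * -(-‖w‖ * s * (R - t * ‖w‖) ^ (s - 1)) =
        K * (R - t * ‖w‖) ^ (-(2 / p)) * ‖w‖ := by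
      have e1 : s - 1 = -(2 / p) := by rw [hs]; ring
      rw [e1]
      field_simp
    rw [e] at h3
    exact h3
  have hfin := image_norm_le_of_norm_deriv_right_le_deriv_boundary'
    (f := fun t : ℝ => X ((t : ℂ) * w) - X 0) (f' := fun t : ℝ => deriv X ((t : ℂ) * w) * w)
    (a := 0) (b := 1)
    (B := fun t : ℝ => K / s * (R ^ s - (R - t * ‖w‖) ^ s))
    (B' := fun t : ℝ => K * (R - t * ‖w‖) ^ (-(2 / p)) * ‖w‖)
    (fun t ht => (hder t ht).continuousAt.continuousWithinAt)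
    (fun t ht => (hder t (Ico_subset_Icc_self ht)).hasDerivWithinAt)
    (by simp)
    (fun t ht => (hderB t ht).continuousAt.continuousWithinAt)
    (fun t ht => (hderB t (Ico_subset_Icc_self ht)).hasDerivWithinAt)
    (by
      intro t ht
      have ht' := Ico_subset_Icc_self ht
      rw [norm_mul]
      refine mul_le_mul_of_nonneg_right ?_ (norm_nonneg _)
      have h1 := hpt _ (hin t ht')
      rwa [norm_mul, Complex.norm_real, Real.norm_of_nonneg ht'.1] at h1)
    (right_mem_Icc.2 zero_le_one)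
  simp only [Complex.ofReal_one, one_mul] at hfin
  have hb1 : K / s * (R ^ s - (R - ‖w‖) ^ s) ≤ K / s := by
    have h1 : R ^ s ≤ 1 := Real.rpow_le_one hR.le hR1 hs0.le
    have h2 : 0 ≤ (R - ‖w‖) ^ s := Real.rpow_nonneg (by linarith) _
    have h3 : 0 ≤ K / s := by positivity
    nlinarith
  have hKs : K < s / 4 := by
    have h1 : 4 * δ / Real.pi < (s / 4) ^ p := by
      have h2 : (4 / s) ^ p * (s / 4) ^ p = 1 := by
        rw [← Real.mul_rpow (by positivity) (by positivity),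
          show 4 / s * (s / 4) = 1 by field_simp, Real.one_rpow]
      have h3 : 0 < (s / 4) ^ p := Real.rpow_pos_of_pos (by positivity) _
      have h4 : 4 * δ / Real.pi = (4 / Real.pi * (4 / s) ^ p * δ) * (s / 4) ^ p := by
        calc 4 * δ / Real.pi = 4 * δ / Real.pi * ((4 / s) ^ p * (s / 4) ^ p) := by rw [h2, mul_one]
          _ = _ := by ring
      rw [h4]
      nlinarith
    calc K = (4 * δ / Real.pi) ^ (1 / p) := hK
      _ < ((s / 4) ^ p) ^ (1 / p) := Real.rpow_lt_rpow (by positivity) h1 (by positivity)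
      _ = s / 4 := by
          rw [← Real.rpow_mul (by positivity), mul_one_div_cancel hp0.ne', Real.rpow_one]
  have h5 : K / s < 1 / 4 := by
    rw [div_lt_iff₀ hs0]
    linarith
  linarith

end Pool.Agent.P2U
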